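import Pool.Agent.Lib.MP_610fe3_an.HYP.Spec

/-!
# Module CLOS: the range of a continuous field of projections is closed in the tangent bundle
-/

open Set Filter Function Bundle
open scoped Manifold ContDiff Topology

namespace Pool.Agent.Lib.MP610fe3.HYP

universe u v

/-- **Module CLOS.** -/
theorem specClos : SpecClos.{u, v} := by
  intro V _ _ _ N M _ _ _ _ e he hinj R hR hRR Ew hEw
  have h1 : Continuous (tangentMap 𝓘(ℝ, V) (𝓡 N) e) :=
    he.continuous_tangentMap (by simp)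
  have h2 : Continuous fun p : TangentBundle 𝓘(ℝ, V) M =>
      (mfderiv 𝓘(ℝ, V) (𝓡 N) e p.1 p.2 : EuclideanSpace ℝ (Fin N)) := by
    have h3 := (tangentBundleModelSpaceHomeomorph (𝓡 N)).continuous.comp h1
    exact continuous_snd.comp h3
  have h4 : Continuous fun p : TangentBundle 𝓘(ℝ, V) M => p.1 :=
    FiberBundle.continuous_proj V (fun x : M => TangentSpace 𝓘(ℝ, V) x)
  have h5 : {p : TangentBundle 𝓘(ℝ, V) M | p.2 ∈ Ew p.1} = {p : TangentBundle 𝓘(ℝ, V) M |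
      R p.1 (mfderiv 𝓘(ℝ, V) (𝓡 N) e p.1 p.2 : EuclideanSpace ℝ (Fin N)) =
        mfderiv 𝓘(ℝ, V) (𝓡 N) e p.1 p.2} := by
    ext p
    constructor
    · intro hp
      have h6 : (mfderiv 𝓘(ℝ, V) (𝓡 N) e p.1 p.2 : EuclideanSpace ℝ (Fin N)) ∈
          (R p.1).range := by
        rw [hEw]
        exact ⟨p.2, hp, rfl⟩
      obtain ⟨w, hw⟩ := h6
      have hw' : R p.1 w = mfderiv 𝓘(ℝ, V) (𝓡 N) e p.1 p.2 := hw
      have h7 := congrArg (fun L => L w) (hRR p.1)
      simp only [ContinuousLinearMap.comp_apply] at h7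
      change R p.1 (mfderiv 𝓘(ℝ, V) (𝓡 N) e p.1 p.2 : EuclideanSpace ℝ (Fin N)) = _
      rw [← hw', h7]
    · intro hp
      have h6 : (mfderiv 𝓘(ℝ, V) (𝓡 N) e p.1 p.2 : EuclideanSpace ℝ (Fin N)) ∈
          (R p.1).range := ⟨_, hp⟩
      rw [hEw] at h6
      obtain ⟨v, hv, hvp⟩ := h6
      have h7 : v = p.2 := hinj p.1 hvp
      change p.2 ∈ Ew p.1
      rw [← h7]
      exact hv
  rw [h5]
  exact isClosed_eq ((hR.comp h4).clm_apply h2) h2

end Pool.Agent.Lib.MP610fe3.HYP
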