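import Pool.Agent.Lib.MP_610fe3_an.HYP.Spec
import Pool.Agent.Lib.MP_610fe3_an.PR.HOL
import Pool.Agent.Lib.MP_610fe3_an.PR.PER

/-!
# Module FLD: the projections on the summands of a dominated splitting, in the ambient space
-/

open Set Filter Function Bundle
open scoped Manifold ContDiff Topology

namespace Pool.Agent.Lib.MP610fe3.HYP

universe u v

section LinAlg

variable {W : Type*} [NormedAddCommGroup W] [NormedSpace ℝ W] [FiniteDimensional ℝ W]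

/-- The projections of the range of a projection `U` on two complementary subspaces. -/
theorem exists_proj (U : W →L[ℝ] W) (hUU : U ∘L U = U) (A B : Submodule ℝ W)
    (hAB : Disjoint A B) (hsup : U.range = A ⊔ B) :
    ∃ R T : W →L[ℝ] W, R + T = U ∧ (∀ w, R w ∈ A) ∧ (∀ w, T w ∈ B) ∧
      (∀ w ∈ A, R w = w ∧ T w = 0) ∧ (∀ w ∈ B, R w = 0 ∧ T w = w) := by
  have hUa : ∀ w, U (U w) = U w := fun w => congrArg (fun L => L w) hUU
  have hUid : ∀ w ∈ A ⊔ B, U w = w := by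
    intro w hw
    rw [← hsup] at hw
    obtain ⟨v, hv⟩ := hw
    have hv' : U v = w := hv
    rw [← hv', hUa]
  set Z : Submodule ℝ W := LinearMap.ker U.toLinearMap with hZ
  have hcompl : IsCompl A (B ⊔ Z) := by
    constructor
    · rw [Submodule.disjoint_def]
      intro w hwA hwBZ
      obtain ⟨b, hb, z, hz, hbz⟩ := Submodule.mem_sup.1 hwBZ
      have hUz : U z = 0 := hz
      have h1 : U w = b := by
        rw [← hbz, map_add, hUz, add_zero, hUid b (Submodule.mem_sup_right hb)]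
      have h2 : U w = w := hUid w (Submodule.mem_sup_left hwA)
      have h3 : w ∈ B := by rw [← h2, h1]; exact hb
      exact (Submodule.disjoint_def.1 hAB) w hwA h3
    · rw [codisjoint_iff, eq_top_iff]
      intro w _
      have h1 : U w ∈ A ⊔ B := by
        rw [← hsup]
        exact ⟨w, rfl⟩
      have h2 : w - U w ∈ Z := by
        change U (w - U w) = 0
        rw [map_sub, hUa, sub_self]
      have h3 : w = U w + (w - U w) := by abel
      rw [h3]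
      refine Submodule.add_mem _ ?_ ?_
      · exact (sup_le_sup_left le_sup_left A) h1
      · exact (le_sup_right.trans le_sup_right : Z ≤ A ⊔ (B ⊔ Z)) h2
  set R : W →L[ℝ] W := LinearMap.toContinuousLinearMap (A.projection (B ⊔ Z) hcompl) with hR
  have hR1 : ∀ w, R w ∈ A := fun w => Submodule.projection_apply_mem hcompl w
  have hR2 : ∀ w ∈ A, R w = w := fun w hw =>
    Submodule.projection_apply_of_mem_left hcompl hw
  have hR3 : ∀ w ∈ B ⊔ Z, R w = 0 := fun w hw =>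
    (Submodule.projection_apply_eq_zero_iff hcompl).2 hw
  refine ⟨R, U - R, by abel, hR1, fun w => ?_, fun w hw => ⟨hR2 w hw, ?_⟩, fun w hw =>
    ⟨hR3 w (Submodule.mem_sup_left hw), ?_⟩⟩
  · have h1 : U w ∈ A ⊔ B := by
      rw [← hsup]
      exact ⟨w, rfl⟩
    obtain ⟨a, ha, b, hb, hab⟩ := Submodule.mem_sup.1 h1
    have h2 : w - U w ∈ Z := by
      change U (w - U w) = 0
      rw [map_sub, hUa, sub_self]
    have h3 : R w = a := by
      have h4 : w = a + (b + (w - U w)) := by rw [← hab]; abel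
      conv_lhs => rw [h4]
      rw [map_add, hR2 a ha, hR3 _ (Submodule.add_mem_sup hb h2), add_zero]
    have h5 : (U - R) w = b := by
      rw [sub_apply, h3, ← hab]
      abel
    rw [h5]
    exact hb
  · rw [sub_apply, hR2 w hw, hUid w (Submodule.mem_sup_left hw), sub_self]
  · rw [sub_apply, hR3 w (Submodule.mem_sup_left hw),
      hUid w (Submodule.mem_sup_right hw), sub_zero]

end LinAlg

section Ambient

variable {M : Type*} [MetricSpace M] [CompactSpace M] {W : Type*} [NormedAddCommGroup W]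
  [NormedSpace ℝ W] [FiniteDimensional ℝ W] {J : Emb M W} {f : M ≃ₜ M}

/-- The dominated splitting in the ambient space. -/
theorem exists_domSplit (S : Split J f) (hS : S.Hyperbolic) (A B : M → Submodule ℝ W)
    (hAB : ∀ x, Disjoint (A x) (B x)) (hsup : ∀ x, (S.U x).range = A x ⊔ B x)
    (hA : ∀ x, ∀ w ∈ A x, S.D x w ∈ A (f x)) (hB : ∀ x, ∀ w ∈ B x, S.D x w ∈ B (f x))
    (hne : ∀ x, ∃ e : W, e ≠ 0 ∧ e ∈ B x ∧ ∀ w ∈ B x, ∃ c : ℝ, w = c • e) {C l : ℝ} (hC : 1 ≤ C)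
    (hl : 0 < l) (hl1 : l < 1)
    (hdom : ∀ (k : ℕ) (x : M), ∀ v ∈ A x, ∀ w ∈ B x,
      ‖iterD S.D f k x v‖ * ‖w‖ ≤ C * l ^ k * ‖iterD S.D f k x w‖ * ‖v‖) :
    ∃ (R T : M → W →L[ℝ] W) (K C' : ℝ), DomSplit S R T K C' l ∧ (∀ x, (R x).range = A x) ∧
      (∀ x, (T x).range = B x) := by
  obtain ⟨Ch, lh, hCh, hlh, hlh1, hh⟩ := hS
  obtain ⟨Q₀, hQ₀1, hQ₀⟩ := exists_norm_bound S.hD.cont
  obtain ⟨K', hK'1, hK'⟩ := S.exists_bdd
  have hC0 : 0 ≤ C := by linarith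
  choose R T hadd hRm hTm hRA hTB using fun x => exists_proj (S.U x) (S.UU x) (A x) (B x)
    (hAB x) (hsup x)
  have hUid : ∀ x, ∀ w ∈ A x ⊔ B x, S.U x w = w := by
    intro x w hw
    rw [← hsup] at hw
    obtain ⟨v, hv⟩ := hw
    have hv' : S.U x v = w := hv
    rw [← hv']
    exact congrArg (fun L => L v) (S.UU x)
  have haddw : ∀ x w, R x w + T x w = S.U x w := fun x w =>
    congrArg (fun L => L w) (hadd x)
  -- growth
  have hgrow : ∀ (k : ℕ) (x : M) (w : W), w ∈ A x ⊔ B x → ‖w‖ ≤ Ch * ‖iterD S.D f k x w‖ := by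
    intro k x w hw
    have h1 := PR.HOL.norm_U_le S (fun k x w => (hh k x w).2) k x w
    rw [hUid x w hw] at h1
    refine h1.trans ?_
    have h2 : lh ^ k ≤ 1 := pow_le_one₀ hlh.le hlh1.le
    calc Ch * lh ^ k * ‖iterD S.D f k x w‖ ≤ Ch * 1 * ‖iterD S.D f k x w‖ := by gcongr
      _ = _ := by ring
  -- the number of iterates
  obtain ⟨k, hk⟩ : ∃ k : ℕ, C * l ^ k ≤ 1 / 2 := by
    have h := (tendsto_pow_atTop_nhds_zero_of_lt_one hl.le hl1).const_mul C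
    rw [mul_zero] at h
    obtain ⟨k, hk⟩ := (h.eventually (gt_mem_nhds (by norm_num : (0 : ℝ) < 1 / 2))).exists
    exact ⟨k, hk.le⟩
  set K₀ : ℝ := 2 + Ch * Q₀ ^ k with hK₀
  have hK₀0 : 2 ≤ K₀ := by
    have : 0 ≤ Ch * Q₀ ^ k := by positivity
    linarith
  have hbR : ∀ x w, ‖R x w‖ ≤ K₀ * ‖S.U x w‖ := by
    intro x w
    set r := R x w with hr
    set t := T x w with ht
    set u := S.U x w with hu
    have hrt : r + t = u := haddw x w
    have h1 : ‖iterD S.D f k x r‖ * ‖t‖ ≤ 1 / 2 * (‖iterD S.D f k x t‖ * ‖r‖) := by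
      calc ‖iterD S.D f k x r‖ * ‖t‖ ≤ C * l ^ k * ‖iterD S.D f k x t‖ * ‖r‖ :=
            hdom k x r (hRm x w) t (hTm x w)
        _ = C * l ^ k * (‖iterD S.D f k x t‖ * ‖r‖) := by ring
        _ ≤ 1 / 2 * (‖iterD S.D f k x t‖ * ‖r‖) := by gcongr
    have h2 : ‖r‖ - ‖u‖ ≤ ‖t‖ := by
      have : r = u - t := by rw [← hrt]; abel
      rw [this]
      have := norm_sub_le u t
      linarith
    have h3 : ‖iterD S.D f k x t‖ ≤ ‖iterD S.D f k x r‖ + Q₀ ^ k * ‖u‖ := by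
      have : t = u - r := by rw [← hrt]; abel
      rw [this, map_sub]
      have h4 : ‖iterD S.D f k x u‖ ≤ Q₀ ^ k * ‖u‖ :=
        (iterD S.D f k x).le_of_opNorm_le (PR.HOL.norm_iterD_le S.D f hQ₀ k x) u
      have := norm_sub_le (iterD S.D f k x u) (iterD S.D f k x r)
      linarith
    have h4 : ‖r‖ ≤ Ch * ‖iterD S.D f k x r‖ :=
      hgrow k x r (Submodule.mem_sup_left (hRm x w))
    by_cases hr0 : ‖r‖ ≤ 2 * ‖u‖
    · refine hr0.trans ?_
      gcongr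
    · rw [not_le] at hr0
      have h5 : 0 < ‖r‖ := lt_of_le_of_lt (by positivity) hr0
      set a := ‖iterD S.D f k x r‖ with ha
      have h6 : a * (‖r‖ - ‖u‖) ≤ 1 / 2 * ((a + Q₀ ^ k * ‖u‖) * ‖r‖) := by
        calc a * (‖r‖ - ‖u‖) ≤ a * ‖t‖ := by gcongr
          _ ≤ 1 / 2 * (‖iterD S.D f k x t‖ * ‖r‖) := h1
          _ ≤ _ := by gcongr
      have h7 : a * (‖r‖ - 2 * ‖u‖) ≤ Q₀ ^ k * ‖u‖ * ‖r‖ := by nlinarith
      have h8 : ‖r‖ * (‖r‖ - 2 * ‖u‖) ≤ Ch * (Q₀ ^ k * ‖u‖ * ‖r‖) := by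
        calc ‖r‖ * (‖r‖ - 2 * ‖u‖) ≤ (Ch * a) * (‖r‖ - 2 * ‖u‖) :=
              mul_le_mul_of_nonneg_right h4 (by linarith)
          _ = Ch * (a * (‖r‖ - 2 * ‖u‖)) := by ring
          _ ≤ _ := mul_le_mul_of_nonneg_left h7 hCh.le
      have h9 : ‖r‖ - 2 * ‖u‖ ≤ Ch * Q₀ ^ k * ‖u‖ := by
        refine le_of_mul_le_mul_left ?_ h5
        calc ‖r‖ * (‖r‖ - 2 * ‖u‖) ≤ _ := h8
          _ = ‖r‖ * (Ch * Q₀ ^ k * ‖u‖) := by ring
      rw [hK₀]
      linarith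
  have hbR' : ∀ x, ‖R x‖ ≤ K₀ * K' := fun x =>
    ContinuousLinearMap.opNorm_le_bound _ (by positivity) fun w => by
      calc ‖R x w‖ ≤ K₀ * ‖S.U x w‖ := hbR x w
        _ ≤ K₀ * (K' * ‖w‖) := by
            gcongr
            exact (S.U x).le_of_opNorm_le (hK' x).2 w
        _ = _ := by ring
  have hbT' : ∀ x, ‖T x‖ ≤ K₀ * K' + K' := fun x => by
    have h1 : T x = S.U x - R x := by rw [← hadd x]; abel
    rw [h1]
    calc ‖S.U x - R x‖ ≤ ‖S.U x‖ + ‖R x‖ := norm_sub_le _ _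
      _ ≤ K' + K₀ * K' := add_le_add (hK' x).2 (hbR' x)
      _ = _ := by ring
  set K : ℝ := K₀ * K' + K' with hK
  have hK1 : 1 ≤ K := by nlinarith
  have hKR : ∀ x, ‖R x‖ ≤ K := fun x => (hbR' x).trans (by linarith)
  -- the norm on the line
  have key : ∀ (k : ℕ) (x : M), ∃ ρ : ℝ, 0 ≤ ρ ∧ (∀ w ∈ B x, ‖iterD S.D f k x w‖ = ρ * ‖w‖) ∧
      (∀ v ∈ A x, ‖iterD S.D f k x v‖ ≤ C * l ^ k * ρ * ‖v‖) ∧
      ρ ≤ ‖iterD S.D f k x ∘L S.U x‖ ∧ ‖iterD S.D f k x ∘L S.U x‖ ≤ (C + 1) * K * ρ := by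
    intro k x
    obtain ⟨e, he0, heB, heS⟩ := hne x
    have he : 0 < ‖e‖ := norm_pos_iff.2 he0
    set ρ := ‖iterD S.D f k x e‖ / ‖e‖ with hρ
    have hρ0 : 0 ≤ ρ := by positivity
    have h1 : ∀ w ∈ B x, ‖iterD S.D f k x w‖ = ρ * ‖w‖ := by
      intro w hw
      obtain ⟨c, rfl⟩ := heS w hw
      rw [map_smul, norm_smul, norm_smul, hρ]
      field_simp
    have h2 : ∀ v ∈ A x, ‖iterD S.D f k x v‖ ≤ C * l ^ k * ρ * ‖v‖ := by
      intro v hv
      have h3 := hdom k x v hv e heB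
      rw [h1 e heB] at h3
      refine le_of_mul_le_mul_right ?_ he
      calc ‖iterD S.D f k x v‖ * ‖e‖ ≤ C * l ^ k * (ρ * ‖e‖) * ‖v‖ := h3
        _ = _ := by ring
    refine ⟨ρ, hρ0, h1, h2, ?_, ?_⟩
    · have h3 : ρ * ‖e‖ ≤ ‖iterD S.D f k x ∘L S.U x‖ * ‖e‖ := by
        rw [← h1 e heB]
        have h4 := (iterD S.D f k x ∘L S.U x).le_opNorm e
        rw [ContinuousLinearMap.comp_apply, hUid x e (Submodule.mem_sup_right heB)] at h4
        exact h4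
      exact le_of_mul_le_mul_right h3 he
    · refine ContinuousLinearMap.opNorm_le_bound _ (by positivity) fun w => ?_
      have h3 : (iterD S.D f k x ∘L S.U x) w =
          iterD S.D f k x (R x w) + iterD S.D f k x (T x w) := by
        rw [ContinuousLinearMap.comp_apply, ← haddw, map_add]
      have hl' : l ^ k ≤ 1 := pow_le_one₀ hl.le hl1.le
      rw [h3]
      calc ‖iterD S.D f k x (R x w) + iterD S.D f k x (T x w)‖
          ≤ ‖iterD S.D f k x (R x w)‖ + ‖iterD S.D f k x (T x w)‖ := norm_add_le _ _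
        _ ≤ C * l ^ k * ρ * ‖R x w‖ + ρ * ‖T x w‖ :=
            add_le_add (h2 _ (hRm x w)) (h1 _ (hTm x w)).le
        _ ≤ C * 1 * ρ * (K * ‖w‖) + ρ * (K * ‖w‖) := by
            have i1 : ‖R x w‖ ≤ K * ‖w‖ := (R x).le_of_opNorm_le (hKR x) w
            have i2 : ‖T x w‖ ≤ K * ‖w‖ := (T x).le_of_opNorm_le (hbT' x) w
            gcongr
        _ = _ := by ring
  have hequi : ∀ x w, S.D x (R x w) = R (f x) (S.D x w) ∧ S.D x (T x w) = T (f x) (S.D x w) := by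
    intro x w
    have h1 : R (f x) (S.D x w) = R (f x) (S.U (f x) (S.D x w)) := by
      have h2 := haddw (f x) (S.D x w)
      rw [← h2, map_add, (hRA (f x) _ (hRm _ _)).1, (hTB (f x) _ (hTm _ _)).1, add_zero]
    have h1' : T (f x) (S.D x w) = T (f x) (S.U (f x) (S.D x w)) := by
      have h2 := haddw (f x) (S.D x w)
      rw [← h2, map_add, (hRA (f x) _ (hRm _ _)).2, (hTB (f x) _ (hTm _ _)).2, zero_add]
    have h3 : S.U (f x) (S.D x w) = S.D x (R x w) + S.D x (T x w) := by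
      have h4 := congrArg (fun L => L w) (S.DU x)
      simp only [ContinuousLinearMap.comp_apply] at h4
      rw [← h4, ← haddw, map_add]
    have h5 := hRA (f x) _ (hA x _ (hRm x w))
    have h6 := hTB (f x) _ (hB x _ (hTm x w))
    constructor
    · rw [h1, h3, map_add, h5.1, h6.1, add_zero]
    · rw [h1', h3, map_add, h5.2, h6.2, zero_add]
  refine ⟨R, T, K, (C + 1) * K, ⟨hK1, by nlinarith, hl, hl1, hadd, ?_, ?_, ?_, ?_, ?_, ?_,
    fun x => ⟨hKR x, hbT' x⟩, ?_, ?_, ?_⟩, ?_, ?_⟩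
  · exact fun x => ContinuousLinearMap.ext fun w => (hRA x _ (hRm x w)).1
  · exact fun x => ContinuousLinearMap.ext fun w => (hTB x _ (hTm x w)).2
  · exact fun x => ContinuousLinearMap.ext fun w => (hTB x _ (hTm x w)).1
  · exact fun x => ContinuousLinearMap.ext fun w => (hRA x _ (hRm x w)).2
  · exact fun x => ContinuousLinearMap.ext fun w => (hequi x w).1
  · exact fun x => ContinuousLinearMap.ext fun w => (hequi x w).2
  · intro k x w
    obtain ⟨ρ, hρ0, -, h2, h3, -⟩ := key k x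
    refine (h2 _ (hRm x w)).trans ?_
    have hl' : 0 ≤ l ^ k := by positivity
    have : C ≤ (C + 1) * K := by nlinarith
    gcongr
  · intro x hx
    obtain ⟨e, he0, heB, -⟩ := hne x
    have := (hTB x e heB).2
    rw [hx] at this
    exact he0 this.symm
  · intro k x w
    obtain ⟨ρ, hρ0, h1, -, -, h4⟩ := key k x
    rw [h1 _ (hTm x w)]
    calc ‖iterD S.D f k x ∘L S.U x‖ * ‖T x w‖ ≤ (C + 1) * K * ρ * ‖T x w‖ := by gcongr
      _ = _ := by ring
  · intro x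
    ext w
    constructor
    · rintro ⟨v, rfl⟩
      exact hRm x v
    · intro hw
      exact ⟨w, (hRA x w hw).1⟩
  · intro x
    ext w
    constructor
    · rintro ⟨v, rfl⟩
      exact hTm x v
    · intro hw
      exact ⟨w, (hTB x w hw).2⟩

end Ambient

open Gen Cf Cf.Mfd in
/-- **Module FLD.** -/
theorem specFld : SpecFld.{u, v} := by
  intro V _ _ _ N M _ _ _ _ _ _ E he hinj hEP f Eu Ew El H S hS hSu
  obtain ⟨C, l, hC, hl, hl1, hdom⟩ := H.dom
  obtain ⟨c₀, C₁, hc₀, hC₁, hn⟩ := exists_norm_bounds E.e he hinj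
  have hinj' : ∀ x, Injective (dF V E.e x) := hinj
  have hn' : ∀ x (v : TangentSpace 𝓘(ℝ, V) x), c₀ * ‖v‖ ≤ ‖dE V E.e x v‖ ∧
      ‖dE V E.e x v‖ ≤ C₁ * ‖v‖ := by
    intro x v
    have h1 := hn x v
    rw [norm_tangentSpace_vectorSpace] at h1
    exact h1
  have he1 : ContMDiff 𝓘(ℝ, V) (𝓡 N) 1 E.e := he.of_le (by exact_mod_cast le_top)
  have hh : ContMDiff 𝓘(ℝ, V) 𝓘(ℝ, V) 1 f := f.contMDiff
  have hDd : ∀ x (u : TangentSpace 𝓘(ℝ, V) x), S.D x (dE V E.e x u) =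
      dE V E.e (f x) (mfderiv 𝓘(ℝ, V) 𝓘(ℝ, V) f x u) := by
    intro x u
    have h3 := mfderiv_comp (I := 𝓘(ℝ, V)) (I' := 𝓘(ℝ, V)) (I'' := 𝓡 N) (f := f) x
      (he1.mdifferentiable (by norm_num) (f x)) (hh.mdifferentiable (by norm_num) x)
    rw [HasD_eq_KF E he hinj hEP hh S.hD x]
    refine (KF_apply hinj' x u).trans ?_
    unfold dF
    rw [h3]
    rfl
  have hit : ∀ (k : ℕ) x (v : TangentSpace 𝓘(ℝ, V) x), iterD S.D f k x (dE V E.e x v) =
      dE V E.e (f^[k] x) (mfderiv 𝓘(ℝ, V) 𝓘(ℝ, V) (f^[k]) x v) :=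
    fun k x v => iterD_dE he hh hDd k x v
  have hlow : ∀ x (v : TangentSpace 𝓘(ℝ, V) x), ‖v‖ ≤ 1 / c₀ * ‖dE V E.e x v‖ := by
    intro x v
    rw [one_div, inv_mul_eq_div, le_div_iff₀ hc₀, mul_comm]
    exact (hn' x v).1
  set A : M → Submodule ℝ (EuclideanSpace ℝ (Fin N)) :=
    fun x => (Ew x).map (mfderiv 𝓘(ℝ, V) (𝓡 N) E.e x).toLinearMap with hA
  set B : M → Submodule ℝ (EuclideanSpace ℝ (Fin N)) :=
    fun x => (El x).map (mfderiv 𝓘(ℝ, V) (𝓡 N) E.e x).toLinearMap with hB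
  have hAB : ∀ x, Disjoint (A x) (B x) := by
    intro x
    rw [Submodule.disjoint_def]
    rintro w ⟨v, hv, hvw⟩ ⟨v', hv', hvw'⟩
    have h1 : v = v' := hinj x (hvw.trans hvw'.symm)
    subst h1
    have h2 : v = 0 := (Submodule.disjoint_def.1 (H.disj x)) v hv hv'
    rw [← hvw, h2]
    exact map_zero _
  have hsup : ∀ x, (S.U x).range = A x ⊔ B x := by
    intro x
    rw [hSu x, ← H.sup_eq x, Submodule.map_sup]
    rfl
  have hAD : ∀ x, ∀ w ∈ A x, S.D x w ∈ A (f.toHomeomorph x) := by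
    rintro x w ⟨v, hv, rfl⟩
    refine ⟨mfderiv 𝓘(ℝ, V) 𝓘(ℝ, V) f x v, ?_, (hDd x v).symm⟩
    have h1 : mfderiv 𝓘(ℝ, V) 𝓘(ℝ, V) f x v ∈ Ew (f x) := by
      rw [← H.map_w x]
      exact ⟨v, hv, rfl⟩
    exact h1
  have hBD : ∀ x, ∀ w ∈ B x, S.D x w ∈ B (f.toHomeomorph x) := by
    rintro x w ⟨v, hv, rfl⟩
    refine ⟨mfderiv 𝓘(ℝ, V) 𝓘(ℝ, V) f x v, ?_, (hDd x v).symm⟩
    have h1 : mfderiv 𝓘(ℝ, V) 𝓘(ℝ, V) f x v ∈ El (f x) := by
      rw [← H.map_l x]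
      exact ⟨v, hv, rfl⟩
    exact h1
  have hne : ∀ x, ∃ e : EuclideanSpace ℝ (Fin N), e ≠ 0 ∧ e ∈ B x ∧
      ∀ w ∈ B x, ∃ c : ℝ, w = c • e := by
    intro x
    obtain ⟨v, hv0, hv⟩ := finrank_eq_one_iff'.1 (H.line x)
    refine ⟨dE V E.e x v, ?_, ⟨v, v.2, rfl⟩, ?_⟩
    · intro h
      apply hv0
      have h1 : dE V E.e x v = dE V E.e x 0 := by rw [h, map_zero]
      exact Subtype.ext (hinj x h1)
    · rintro w ⟨u, hu, rfl⟩
      obtain ⟨c, hc⟩ := hv ⟨u, hu⟩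
      refine ⟨c, ?_⟩
      have h2 : c • (v : TangentSpace 𝓘(ℝ, V) x) = u := congrArg Subtype.val hc
      rw [← map_smul, h2]
      rfl
  set C' : ℝ := max 1 (C₁ * C₁ * C * (1 / c₀) * (1 / c₀)) with hC'
  obtain ⟨R, T, K, C'', h1, h2, h3⟩ := exists_domSplit S hS A B hAB hsup hAD hBD hne
    (le_max_left 1 (C₁ * C₁ * C * (1 / c₀) * (1 / c₀))) hl hl1 (by
      rintro k x _ ⟨v, hv, rfl⟩ _ ⟨w, hw, rfl⟩
      change ‖iterD S.D f k x (dE V E.e x v)‖ * ‖dE V E.e x w‖ ≤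
        C' * l ^ k * ‖iterD S.D f k x (dE V E.e x w)‖ * ‖dE V E.e x v‖
      rw [hit, hit]
      have h1 := hdom k x v hv w hw
      set Dv := mfderiv 𝓘(ℝ, V) 𝓘(ℝ, V) (f^[k]) x v with hDv
      set Dw := mfderiv 𝓘(ℝ, V) 𝓘(ℝ, V) (f^[k]) x w with hDw
      calc ‖dE V E.e (f^[k] x) Dv‖ * ‖dE V E.e x w‖ ≤ (C₁ * ‖Dv‖) * (C₁ * ‖w‖) := by
            have i1 := (hn' _ Dv).2
            have i2 := (hn' _ w).2
            gcongr
        _ = C₁ * C₁ * (‖Dv‖ * ‖w‖) := by ring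
        _ ≤ C₁ * C₁ * (C * l ^ k * ‖Dw‖ * ‖v‖) := by gcongr
        _ ≤ C₁ * C₁ * (C * l ^ k * (1 / c₀ * ‖dE V E.e (f^[k] x) Dw‖) *
              (1 / c₀ * ‖dE V E.e x v‖)) := by
            have i1 := hlow _ Dw
            have i2 := hlow _ v
            gcongr
        _ = C₁ * C₁ * C * (1 / c₀) * (1 / c₀) * l ^ k * ‖dE V E.e (f^[k] x) Dw‖ *
              ‖dE V E.e x v‖ := by ring
        _ ≤ C' * l ^ k * ‖dE V E.e (f^[k] x) Dw‖ * ‖dE V E.e x v‖ := by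
            gcongr
            exact le_max_right _ _)
  exact ⟨R, T, K, C'', l, h1, h2, h3⟩

end Pool.Agent.Lib.MP610fe3.HYP
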