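import Pool.Agent.Lib.MP_610fe3_an.HYP.Spec
import Pool.Agent.Lib.MP_610fe3_an.PR.HOL

/-!
# Module HOLW: the dominated splitting is Hölder continuous
-/

open Set Filter Function
open scoped Topology

namespace Pool.Agent.Lib.MP610fe3.HYP

universe u v

section Equi

variable {M : Type*} {W : Type*} [NormedAddCommGroup W] [NormedSpace ℝ W]

/-- Products of an equivariant field. -/
theorem iter_equi {f : M → M} {D R : M → W →L[ℝ] W}
    (h : ∀ x, D x ∘L R x = R (f x) ∘L D x) (k : ℕ) (x : M) :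
    iterD D f k x ∘L R x = R (f^[k] x) ∘L iterD D f k x := by
  induction k generalizing x with
  | zero => simp [iterD]
  | succ k ih =>
    rw [show iterD D f (k + 1) x = iterD D f k (f x) ∘L D x from rfl,
      ContinuousLinearMap.comp_assoc, h, ← ContinuousLinearMap.comp_assoc, ih,
      ContinuousLinearMap.comp_assoc, iterate_succ_apply]

theorem iter_equi_apply {f : M → M} {D R : M → W →L[ℝ] W}
    (h : ∀ x, D x ∘L R x = R (f x) ∘L D x) (k : ℕ) (x : M) (w : W) :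
    iterD D f k x (R x w) = R (f^[k] x) (iterD D f k x w) :=
  congrArg (fun A => A w) (iter_equi h k x)

end Equi

namespace DomSplit

variable {M : Type*} [MetricSpace M] {W : Type*} [NormedAddCommGroup W] [NormedSpace ℝ W]
  {J : Emb M W} {f : M ≃ₜ M} {S : Split J f} {R T : M → W →L[ℝ] W} {K C l : ℝ}

section Basic

variable (H : DomSplit S R T K C l)
include H

theorem RU (x : M) : R x ∘L S.U x = R x := by
  rw [← H.add, ContinuousLinearMap.comp_add, H.RR, H.RT, add_zero]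

theorem UR (x : M) : S.U x ∘L R x = R x := by
  rw [← H.add, ContinuousLinearMap.add_comp, H.RR, H.TR, add_zero]

theorem TU (x : M) : T x ∘L S.U x = T x := by
  rw [← H.add, ContinuousLinearMap.comp_add, H.TR, H.TT, zero_add]

theorem UT (x : M) : S.U x ∘L T x = T x := by
  rw [← H.add, ContinuousLinearMap.add_comp, H.RT, H.TT, zero_add]

theorem PR (x : M) : J.P x ∘L R x = R x := by
  rw [← H.UR, ← ContinuousLinearMap.comp_assoc, S.PU]

theorem RP (x : M) : R x ∘L J.P x = R x := by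
  rw [← H.RU, ContinuousLinearMap.comp_assoc, S.UP]

theorem PT (x : M) : J.P x ∘L T x = T x := by
  rw [← H.UT, ← ContinuousLinearMap.comp_assoc, S.PU]

theorem TP (x : M) : T x ∘L J.P x = T x := by
  rw [← H.TU, ContinuousLinearMap.comp_assoc, S.UP]

theorem DiR (x : M) : S.Di x ∘L R x = R (f.symm x) ∘L S.Di x := by
  have h1 := H.DR (f.symm x)
  rw [f.apply_symm_apply] at h1
  have h2 : S.Di x ∘L S.D (f.symm x) = J.P (f.symm x) := by
    have := S.inv1 (f.symm x)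
    rwa [f.apply_symm_apply] at this
  have h3 : R (f.symm x) = S.Di x ∘L R x ∘L S.D (f.symm x) := by
    rw [← h1, ← ContinuousLinearMap.comp_assoc, h2, H.PR]
  rw [h3, ContinuousLinearMap.comp_assoc, ContinuousLinearMap.comp_assoc, S.inv2 x, H.RP]

theorem DiT (x : M) : S.Di x ∘L T x = T (f.symm x) ∘L S.Di x := by
  have h1 := H.DT (f.symm x)
  rw [f.apply_symm_apply] at h1
  have h2 : S.Di x ∘L S.D (f.symm x) = J.P (f.symm x) := by
    have := S.inv1 (f.symm x)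
    rwa [f.apply_symm_apply] at this
  have h3 : T (f.symm x) = S.Di x ∘L T x ∘L S.D (f.symm x) := by
    rw [← h1, ← ContinuousLinearMap.comp_assoc, h2, H.PT]
  rw [h3, ContinuousLinearMap.comp_assoc, ContinuousLinearMap.comp_assoc, S.inv2 x, H.TP]

omit H in
/-- The products of `Di` and `D` on tangent vectors. -/
theorem iter_back (k : ℕ) (x : M) {u : W} (hu : J.P x u = u) :
    iterD S.D f k (f.symm^[k] x) (iterD S.Di f.symm k x u) = u := by
  rcases k with _ | k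
  · simp [iterD]
  · have := congrArg (fun A => A u) (S.iter_inv2 k x)
    simp only [ContinuousLinearMap.comp_apply] at this
    rw [this, hu]

theorem one_le_norm_U (x : M) : 1 ≤ ‖S.U x‖ := by
  by_contra hlt
  rw [not_le] at hlt
  apply H.ne x
  ext w
  have h1 : S.U x (T x w) = T x w := congrArg (fun A => A w) (H.UT x)
  have h2 : ‖T x w‖ ≤ ‖S.U x‖ * ‖T x w‖ := by
    conv_lhs => rw [← h1]
    exact (S.U x).le_opNorm _
  have h3 : ‖T x w‖ = 0 := by
    by_contra h4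
    have h5 : 0 < ‖T x w‖ := lt_of_le_of_ne (norm_nonneg _) (Ne.symm h4)
    nlinarith
  simpa using h3

end Basic

/-- The norm of the product on the unstable space. -/
noncomputable def a (S : Split J f) (k : ℕ) (x : M) : ℝ := ‖iterD S.D f k x ∘L S.U x‖

theorem a_nonneg (k : ℕ) (x : M) : 0 ≤ a S k x := norm_nonneg _

theorem a_lower (H : DomSplit S R T K C l) {Ch lh : ℝ} (hCh : 0 < Ch) (hlh : 0 < lh)
    (hlh1 : lh < 1)
    (h : ∀ (k : ℕ) (x : M) (w : W), ‖iterD S.Di f.symm k x (S.U x w)‖ ≤ Ch * lh ^ k * ‖w‖)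
    (k : ℕ) (x : M) : 1 / Ch ≤ a S k x := by
  have h1 : ‖S.U x‖ ≤ Ch * a S k x := by
    refine ContinuousLinearMap.opNorm_le_bound _ (mul_nonneg hCh.le (a_nonneg k x)) fun v => ?_
    have h2 := PR.HOL.norm_U_le S h k x (S.U x v)
    have h3 : S.U x (S.U x v) = S.U x v := congrArg (fun A => A v) (S.UU x)
    rw [h3] at h2
    have h4 : ‖iterD S.D f k x (S.U x v)‖ ≤ a S k x * ‖v‖ :=
      (iterD S.D f k x ∘L S.U x).le_opNorm v
    have h5 : lh ^ k ≤ 1 := pow_le_one₀ hlh.le hlh1.le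
    calc ‖S.U x v‖ ≤ Ch * lh ^ k * ‖iterD S.D f k x (S.U x v)‖ := h2
      _ ≤ Ch * 1 * (a S k x * ‖v‖) := by gcongr
      _ = Ch * a S k x * ‖v‖ := by ring
  rw [div_le_iff₀ hCh, mul_comm]
  exact (H.one_le_norm_U x).trans h1

/-- Comparison of the products at two points. -/
theorem a_sub_le {B L Q K' C₁ β : ℝ} (hB1 : 1 ≤ B) (hL : 1 ≤ L) (hB : ∀ x, ‖S.D x‖ ≤ B)
    (hD : ∀ x y, ‖S.D x - S.D y‖ ≤ L * dist x y)
    (hf : ∀ x y, dist (f x) (f y) ≤ L * dist x y) (hQ : (B + 1) * L ≤ Q)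
    (hK : ∀ x, ‖S.U x‖ ≤ K') (hU : ∀ x y, ‖S.U x - S.U y‖ ≤ C₁ * dist x y ^ β) (k : ℕ)
    (x y : M) : a S k x - a S k y ≤ Q ^ k * (dist x y * K' + C₁ * dist x y ^ β) := by
  have hBQ : B ≤ Q := by nlinarith
  have hB0 : 0 ≤ B := by linarith
  have hQ0 : 0 ≤ Q := by linarith
  have hQk : 0 ≤ Q ^ k := pow_nonneg hQ0 k
  have h0 : (0 : ℝ) ≤ dist x y := dist_nonneg
  have e : iterD S.D f k x ∘L S.U x - iterD S.D f k y ∘L S.U y =
      (iterD S.D f k x - iterD S.D f k y) ∘L S.U x + iterD S.D f k y ∘L (S.U x - S.U y) := by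
    ext v
    simp
  calc a S k x - a S k y ≤ ‖iterD S.D f k x ∘L S.U x - iterD S.D f k y ∘L S.U y‖ :=
        norm_sub_norm_le _ _
    _ ≤ ‖iterD S.D f k x - iterD S.D f k y‖ * ‖S.U x‖ +
        ‖iterD S.D f k y‖ * ‖S.U x - S.U y‖ := by
        rw [e]
        exact (norm_add_le _ _).trans (add_le_add (ContinuousLinearMap.opNorm_comp_le _ _)
          (ContinuousLinearMap.opNorm_comp_le _ _))
    _ ≤ (Q ^ k * dist x y) * K' + Q ^ k * (C₁ * dist x y ^ β) := by
        refine add_le_add (mul_le_mul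
          (PR.HOL.iterD_lip S.D f hB1 hL hB hD hf hQ k x y) (hK x) (norm_nonneg _)
          (by positivity)) (mul_le_mul ?_ (hU x y) (norm_nonneg _) hQk)
        exact (PR.HOL.norm_iterD_le S.D f hB k _).trans (pow_le_pow_left₀ hB0 hBQ k)
    _ = _ := by ring

/-- First cross term. -/
theorem cross1 (H : DomSplit S R T K C l) {B L Q c₀ : ℝ} (hB1 : 1 ≤ B) (hL : 1 ≤ L)
    (hB : ∀ x, ‖S.D x‖ ≤ B) (hD : ∀ x y, ‖S.D x - S.D y‖ ≤ L * dist x y)
    (hf : ∀ x y, dist (f x) (f y) ≤ L * dist x y) (hQ : (B + 1) * L ≤ Q) (hc₀ : 0 < c₀)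
    (k : ℕ) (x y : M) (hlow : c₀ ≤ a S k y) (hcmp : a S k x ≤ 2 * a S k y) (w : W) :
    ‖T y (R x w)‖ ≤ C * K * (2 * C * l ^ k + Q ^ k * dist x y / c₀) * ‖R x w‖ := by
  have hK0 : 0 ≤ K := by linarith [H.one_le_K]
  have hC0 : 0 ≤ C := by linarith [H.one_le_C]
  have hl0 : 0 ≤ l ^ k := pow_nonneg H.l_pos.le k
  have hQ0 : 0 ≤ Q := by nlinarith
  have hQk : 0 ≤ Q ^ k := pow_nonneg hQ0 k
  have h0 : (0 : ℝ) ≤ dist x y := dist_nonneg
  have ha : 0 < a S k y := hc₀.trans_le hlow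
  set u := R x w with hu
  have h1 : a S k y * ‖T y u‖ ≤ C * ‖iterD S.D f k y (T y u)‖ := by
    have := H.strong k y u
    exact this
  have h2 : ‖iterD S.D f k y (T y u)‖ ≤ K * ‖iterD S.D f k y u‖ := by
    rw [iter_equi_apply H.DT]
    exact (T _).le_of_opNorm_le (H.bdd _).2 _
  have h3 : ‖iterD S.D f k y u‖ ≤ ‖iterD S.D f k x u‖ + Q ^ k * dist x y * ‖u‖ := by
    have e : iterD S.D f k y u = iterD S.D f k x u -
        (iterD S.D f k x - iterD S.D f k y) u := by simp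
    rw [e]
    refine (norm_sub_le _ _).trans (add_le_add le_rfl ?_)
    refine ((iterD S.D f k x - iterD S.D f k y).le_opNorm u).trans ?_
    exact mul_le_mul_of_nonneg_right (PR.HOL.iterD_lip S.D f hB1 hL hB hD hf hQ k x y)
      (norm_nonneg _)
  have h4 : ‖iterD S.D f k x u‖ ≤ C * l ^ k * a S k x * ‖u‖ := by
    have := H.weak k x w
    exact this
  have h5 : a S k y * ‖T y u‖ ≤
      C * (K * (C * l ^ k * (2 * a S k y) * ‖u‖ + Q ^ k * dist x y * ‖u‖)) := by
    calc a S k y * ‖T y u‖ ≤ C * ‖iterD S.D f k y (T y u)‖ := h1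
      _ ≤ C * (K * (‖iterD S.D f k x u‖ + Q ^ k * dist x y * ‖u‖)) := by
          gcongr
          exact h2.trans (by gcongr)
      _ ≤ C * (K * (C * l ^ k * (2 * a S k y) * ‖u‖ + Q ^ k * dist x y * ‖u‖)) := by
          gcongr
          exact h4.trans (by gcongr)
  have h6 : Q ^ k * dist x y * ‖u‖ ≤ a S k y * (Q ^ k * dist x y / c₀ * ‖u‖) := by
    have h7 : 0 ≤ Q ^ k * dist x y / c₀ * ‖u‖ := by positivity
    calc Q ^ k * dist x y * ‖u‖ = c₀ * (Q ^ k * dist x y / c₀ * ‖u‖) := by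
          field_simp
      _ ≤ _ := mul_le_mul_of_nonneg_right hlow h7
  refine le_of_mul_le_mul_left ?_ ha
  calc a S k y * ‖T y u‖
      ≤ C * (K * (C * l ^ k * (2 * a S k y) * ‖u‖ + Q ^ k * dist x y * ‖u‖)) := h5
    _ ≤ C * (K * (C * l ^ k * (2 * a S k y) * ‖u‖ +
        a S k y * (Q ^ k * dist x y / c₀ * ‖u‖))) := by gcongr
    _ = a S k y * (C * K * (2 * C * l ^ k + Q ^ k * dist x y / c₀) * ‖u‖) := by ring

/-- Second cross term. -/
theorem cross2 (H : DomSplit S R T K C l) {B L Q K' : ℝ} (hB1 : 1 ≤ B) (hL : 1 ≤ L)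
    (hB : ∀ x, ‖S.D x‖ ≤ B) (hBi : ∀ x, ‖S.Di x‖ ≤ B)
    (hDi : ∀ x y, ‖S.Di x - S.Di y‖ ≤ L * dist x y)
    (hfi : ∀ x y, dist (f.symm x) (f.symm y) ≤ L * dist x y) (hQ : (B + 1) * L ≤ Q)
    (hK' : ∀ x, ‖S.U x‖ ≤ K')
    (k : ℕ) (x y : M) (hcmp : a S k (f.symm^[k] y) ≤ 2 * a S k (f.symm^[k] x)) (w : W) :
    ‖R y (T x w)‖ ≤ C * K * l ^ k * (2 * C + K' * (B ^ k * (Q ^ k * dist x y))) * ‖T x w‖ := by
  have hK0 : 0 ≤ K := by linarith [H.one_le_K]
  have hC0 : 0 ≤ C := by linarith [H.one_le_C]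
  have hl0 : 0 ≤ l ^ k := pow_nonneg H.l_pos.le k
  have hB0 : 0 ≤ B := by linarith
  have hQ0 : 0 ≤ Q := by nlinarith
  have hQk : 0 ≤ Q ^ k := pow_nonneg hQ0 k
  have h0 : (0 : ℝ) ≤ dist x y := dist_nonneg
  set u := T x w with hu
  set x' := f.symm^[k] x with hx'
  set y' := f.symm^[k] y with hy'
  have hPu : J.P x u = u := congrArg (fun A => A w) (H.PT x)
  have hTu : T x u = u := congrArg (fun A => A w) (H.TT x)
  -- the preimage of `u`
  set z := iterD S.Di f.symm k x u with hz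
  have hz1 : T x' z = z := by
    have := iter_equi_apply H.DiT k x u
    rw [hTu] at this
    exact this.symm
  have hz2 : iterD S.D f k x' z = u := iter_back k x hPu
  have hz3 : a S k x' * ‖z‖ ≤ C * ‖u‖ := by
    have := H.strong k x' z
    rw [hz1, hz2] at this
    exact this
  -- the preimage of `R y u`
  have h1 : R y u = iterD S.D f k y' (R y' (iterD S.Di f.symm k y u)) := by
    have e1 : R y' (iterD S.Di f.symm k y u) = iterD S.Di f.symm k y (R y u) :=
      (iter_equi_apply H.DiR k y u).symm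
    rw [e1]
    exact (iter_back k y (congrArg (fun A => A u) (H.PR y))).symm
  have h2 : ‖iterD S.Di f.symm k y u‖ ≤ ‖z‖ + Q ^ k * dist x y * ‖u‖ := by
    have e : iterD S.Di f.symm k y u = z -
        (iterD S.Di f.symm k x - iterD S.Di f.symm k y) u := by simp [hz]
    rw [e]
    refine (norm_sub_le _ _).trans (add_le_add le_rfl ?_)
    refine ((iterD S.Di f.symm k x - iterD S.Di f.symm k y).le_opNorm u).trans ?_
    exact mul_le_mul_of_nonneg_right
      (PR.HOL.iterD_lip S.Di f.symm hB1 hL hBi hDi hfi hQ k x y) (norm_nonneg _)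
  have h3 : ‖R y' (iterD S.Di f.symm k y u)‖ ≤ K * (‖z‖ + Q ^ k * dist x y * ‖u‖) :=
    ((R y').le_of_opNorm_le (H.bdd _).1 _).trans (by gcongr)
  have ha1 : a S k y' ≤ K' * B ^ k := by
    calc a S k y' ≤ ‖iterD S.D f k y'‖ * ‖S.U y'‖ := ContinuousLinearMap.opNorm_comp_le _ _
      _ ≤ B ^ k * K' := mul_le_mul (PR.HOL.norm_iterD_le S.D f hB k _) (hK' _) (norm_nonneg _)
          (by positivity)
      _ = _ := mul_comm _ _
  have ha0 : 0 ≤ a S k y' := a_nonneg _ _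
  have h4 : a S k y' * (‖z‖ + Q ^ k * dist x y * ‖u‖) ≤
      2 * (C * ‖u‖) + (K' * B ^ k) * (Q ^ k * dist x y * ‖u‖) := by
    rw [mul_add]
    refine add_le_add ?_ (by gcongr)
    calc a S k y' * ‖z‖ ≤ 2 * a S k x' * ‖z‖ := by gcongr
      _ = 2 * (a S k x' * ‖z‖) := by ring
      _ ≤ 2 * (C * ‖u‖) := by gcongr
  have h5 : ‖R y u‖ ≤ C * l ^ k * a S k y' * (K * (‖z‖ + Q ^ k * dist x y * ‖u‖)) := by
    conv_lhs => rw [h1]
    refine (H.weak k y' _).trans ?_
    change C * l ^ k * a S k y' * _ ≤ _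
    gcongr
  calc ‖R y u‖ ≤ C * l ^ k * a S k y' * (K * (‖z‖ + Q ^ k * dist x y * ‖u‖)) := h5
    _ = C * K * l ^ k * (a S k y' * (‖z‖ + Q ^ k * dist x y * ‖u‖)) := by ring
    _ ≤ C * K * l ^ k * (2 * (C * ‖u‖) + (K' * B ^ k) * (Q ^ k * dist x y * ‖u‖)) := by gcongr
    _ = _ := by ring

end DomSplit

/-! ### The choice of the number of iterates -/

/-- The choice of `k`. -/
theorem exists_scale {l Q δ β : ℝ} (hl : 0 < l) (hl1 : l < 1) (hQ : 1 < Q) (hδ : 0 < δ)
    (hδ1 : δ ≤ 1) (hβ : 0 < β) (hβ1 : β ≤ 1 / 2) :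
    ∃ A γ : ℝ, 1 ≤ A ∧ 0 < γ ∧ γ ≤ β ∧ ∀ d : ℝ, 0 < d → d ^ β ≤ δ →
      ∃ k : ℕ, Q ^ k * d ^ β ≤ δ ∧ Q ^ k * d ≤ A * d ^ γ ∧ l ^ k ≤ A * d ^ γ := by
  have hQ0 : 0 < Q := by linarith
  have hlogQ : 0 < Real.log Q := Real.log_pos hQ
  have hlogl : Real.log l < 0 := Real.log_neg hl hl1
  set σ : ℝ := min 1 (-(Real.log l) / Real.log Q) with hσ
  have hσ0 : 0 < σ := lt_min one_pos (div_pos (by linarith) hlogQ)
  have hσ1 : σ ≤ 1 := min_le_left _ _
  have hlσ : l ≤ Q ^ (-σ) := by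
    have h1 : σ * Real.log Q ≤ -(Real.log l) := by
      have := min_le_right (1 : ℝ) (-(Real.log l) / Real.log Q)
      rw [← hσ, le_div_iff₀ hlogQ] at this
      exact this
    rw [Real.rpow_def_of_pos hQ0, ← Real.log_le_iff_le_exp hl]
    linarith
  refine ⟨max 1 (l⁻¹ * δ ^ (-σ)), σ * β, le_max_left _ _, by positivity, by nlinarith,
    fun d hd hdδ => ?_⟩
  have hdβ : 0 < d ^ β := Real.rpow_pos_of_pos hd _
  have hd1 : d ≤ 1 := by
    by_contra h
    rw [not_le] at h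
    have := Real.one_lt_rpow h hβ
    linarith
  obtain ⟨k, hk1, hk2⟩ := exists_nat_pow_near (x := δ / d ^ β) (y := Q)
    (by rw [le_div_iff₀ hdβ]; linarith) hQ
  rw [le_div_iff₀ hdβ] at hk1
  have hdγ : 0 ≤ d ^ (σ * β) := Real.rpow_nonneg hd.le _
  refine ⟨k, hk1, ?_, ?_⟩
  · have h1 : d = d ^ β * d ^ (1 - β) := by
      rw [← Real.rpow_add hd]
      simp
    have h2 : d ^ (1 - β) ≤ d ^ (σ * β) :=
      Real.rpow_le_rpow_of_exponent_ge hd hd1 (by nlinarith)
    calc Q ^ k * d = (Q ^ k * d ^ β) * d ^ (1 - β) := by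
          conv_lhs => rw [h1]
          ring
      _ ≤ 1 * d ^ (σ * β) := by
          have h3 : 0 ≤ d ^ (1 - β) := Real.rpow_nonneg hd.le _
          have h4 : Q ^ k * d ^ β ≤ 1 := hk1.trans hδ1
          gcongr
      _ ≤ max 1 (l⁻¹ * δ ^ (-σ)) * d ^ (σ * β) := by
          gcongr
          exact le_max_left _ _
  · have h1 : l ^ (k + 1) ≤ (δ / d ^ β) ^ (-σ) := by
      calc l ^ (k + 1) ≤ (Q ^ (-σ)) ^ (k + 1) := pow_le_pow_left₀ hl.le hlσ _
        _ = (Q ^ (k + 1)) ^ (-σ) := by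
            rw [← Real.rpow_natCast, ← Real.rpow_natCast, ← Real.rpow_mul hQ0.le,
              ← Real.rpow_mul hQ0.le, mul_comm]
        _ ≤ (δ / d ^ β) ^ (-σ) :=
            Real.rpow_le_rpow_of_nonpos (by positivity) hk2.le (by linarith)
    have h2 : (δ / d ^ β) ^ (-σ) = δ ^ (-σ) * d ^ (σ * β) := by
      rw [Real.div_rpow hδ.le hdβ.le, ← Real.rpow_mul hd.le, div_eq_mul_inv,
        ← Real.rpow_neg hd.le]
      congr 2
      ring
    have h3 : l ^ k = l⁻¹ * l ^ (k + 1) := by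
      rw [pow_succ]
      field_simp
    rw [h3]
    calc l⁻¹ * l ^ (k + 1) ≤ l⁻¹ * (δ ^ (-σ) * d ^ (σ * β)) := by
          have := h1.trans_eq h2
          have hl' : 0 ≤ l⁻¹ := by positivity
          gcongr
      _ = l⁻¹ * δ ^ (-σ) * d ^ (σ * β) := by ring
      _ ≤ _ := by
          gcongr
          exact le_max_right _ _

/-- Comparison of powers of the distance. -/
theorem rpow_le_rpow_cpt {M : Type*} [MetricSpace M] [CompactSpace M] {β γ : ℝ} (hγ : 0 < γ)
    (hγβ : γ ≤ β) : ∃ A : ℝ, 1 ≤ A ∧ ∀ x y : M, dist x y ^ β ≤ A * dist x y ^ γ := by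
  obtain ⟨Δ, hΔ⟩ := Metric.isBounded_iff.1 (isCompact_univ (X := M)).isBounded
  refine ⟨max Δ 1 ^ (β - γ), ?_, fun x y => ?_⟩
  · exact Real.one_le_rpow (le_max_right _ _) (by linarith)
  · rcases eq_or_lt_of_le (dist_nonneg (x := x) (y := y)) with h | h
    · rw [← h, Real.zero_rpow hγ.ne', mul_zero, Real.zero_rpow (by linarith)]
    · have h1 : dist x y ^ β = dist x y ^ (β - γ) * dist x y ^ γ := by
        rw [← Real.rpow_add h, sub_add_cancel]
      have h2 : dist x y ≤ max Δ 1 := (hΔ (mem_univ _) (mem_univ _)).trans (le_max_left _ _)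
      rw [h1]
      have h3 : 0 ≤ dist x y ^ γ := by positivity
      gcongr

/-- A bound for small distances gives a bound. -/
theorem bound_of_small {δ β γ A₁ A₂ t d : ℝ} (hδ : 0 < δ) (hβ : 0 < β) (hγ : 0 < γ) (hd : 0 ≤ d)
    (h0 : d = 0 → t ≤ 0) (h1 : 0 < d → d ^ β ≤ δ → t ≤ A₁ * d ^ γ) (h2 : t ≤ A₂)
    (hA₁ : 0 ≤ A₁) (hA₂ : 0 ≤ A₂) :
    t ≤ (A₁ + A₂ * δ ^ (-(γ / β))) * d ^ γ := by
  have hdγ : 0 ≤ d ^ γ := Real.rpow_nonneg hd _
  have hδ' : 0 ≤ δ ^ (-(γ / β)) := Real.rpow_nonneg hδ.le _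
  rcases hd.eq_or_lt with hd0 | hd0
  · exact (h0 hd0.symm).trans (by positivity)
  · rcases le_or_gt (d ^ β) δ with h | h
    · refine (h1 hd0 h).trans ?_
      rw [add_mul]
      have : 0 ≤ A₂ * δ ^ (-(γ / β)) * d ^ γ := by positivity
      linarith
    · have h3 : δ ^ (γ / β) ≤ d ^ γ := by
        have h4 : (d ^ β) ^ (γ / β) = d ^ γ := by
          rw [← Real.rpow_mul hd]
          congr 1
          field_simp
        rw [← h4]
        exact Real.rpow_le_rpow hδ.le h.le (by positivity)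
      have h5 : 1 ≤ δ ^ (-(γ / β)) * d ^ γ := by
        calc (1 : ℝ) = δ ^ (-(γ / β)) * δ ^ (γ / β) := by
              rw [← Real.rpow_add hδ]
              simp
          _ ≤ _ := by gcongr
      calc t ≤ A₂ := h2
        _ = A₂ * 1 := by ring
        _ ≤ A₂ * (δ ^ (-(γ / β)) * d ^ γ) := by gcongr
        _ ≤ (A₁ + A₂ * δ ^ (-(γ / β))) * d ^ γ := by
            have : 0 ≤ A₁ * d ^ γ := by positivity
            nlinarith

/-- **Module HOLW.** -/
theorem specHolW : SpecHolW.{u, v} := by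
  intro M _ _ W _ _ J f S hS R T K C l H L hD hDi hf hfi C₁ β hβ hβ1 hU
  obtain ⟨Ch, lh, hCh, hlh, hlh1, hh⟩ := hS
  obtain ⟨B₁, hB₁1, hB₁⟩ := exists_norm_bound S.hD.cont
  obtain ⟨B₂, hB₂1, hB₂⟩ := exists_norm_bound S.hDi.cont
  obtain ⟨K', hK'1, hK'⟩ := S.exists_bdd
  have hK0 : 0 ≤ K := by linarith [H.one_le_K]
  have hC0 : 0 ≤ C := by linarith [H.one_le_C]
  have hK'0 : 0 ≤ K' := by linarith
  have hKU : ∀ x, ‖S.U x‖ ≤ K' := fun x => (hK' x).2
  set B : ℝ := max B₁ B₂ with hBdef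
  have hB1 : 1 ≤ B := hB₁1.trans (le_max_left _ _)
  have hB : ∀ x, ‖S.D x‖ ≤ B := fun x => (hB₁ x).trans (le_max_left _ _)
  have hBi : ∀ x, ‖S.Di x‖ ≤ B := fun x => (hB₂ x).trans (le_max_right _ _)
  set L' : ℝ := max L 1 with hLdef
  have hL1 : 1 ≤ L' := le_max_right _ _
  have up : ∀ x y : M, L * dist x y ≤ L' * dist x y := fun x y =>
    mul_le_mul_of_nonneg_right (le_max_left _ _) dist_nonneg
  have hD' : ∀ x y, ‖S.D x - S.D y‖ ≤ L' * dist x y := fun x y => (hD x y).trans (up x y)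
  have hDi' : ∀ x y, ‖S.Di x - S.Di y‖ ≤ L' * dist x y := fun x y => (hDi x y).trans (up x y)
  have hf' : ∀ x y, dist (f x) (f y) ≤ L' * dist x y := fun x y => (hf x y).trans (up x y)
  have hfi' : ∀ x y, dist (f.symm x) (f.symm y) ≤ L' * dist x y := fun x y =>
    (hfi x y).trans (up x y)
  set Q : ℝ := (B + 1) * L' with hQdef
  have hQ1 : 1 < Q := by nlinarith
  have hQ0 : 0 < Q := by linarith
  have hBQ : B ≤ Q := by nlinarith
  have hLQ : L' ≤ Q := by nlinarith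
  -- the exponent
  set β' : ℝ := min β (1 / 2) with hβ'
  have hβ'0 : 0 < β' := lt_min hβ (by norm_num)
  have hβ'1 : β' ≤ 1 / 2 := min_le_right _ _
  obtain ⟨A₁, hA₁1, hA₁⟩ := rpow_le_rpow_cpt (M := M) hβ'0 (min_le_left β (1 / 2))
  obtain ⟨A₂, hA₂1, hA₂⟩ := rpow_le_rpow_cpt (M := M) hβ'0 (by linarith : β' ≤ 1)
  set G : ℝ := A₂ * K' + |C₁| * A₁ with hG
  have hG0 : 0 ≤ G := by positivity
  set c₀ : ℝ := 1 / Ch with hc₀
  have hc₀0 : 0 < c₀ := by positivity
  have hlow : ∀ k x, c₀ ≤ DomSplit.a S k x := fun k x =>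
    H.a_lower hCh hlh hlh1 (fun k x w => (hh k x w).2) k x
  have hsub : ∀ k (x y : M), DomSplit.a S k x - DomSplit.a S k y ≤
      Q ^ k * (G * dist x y ^ β') := by
    intro k x y
    refine (DomSplit.a_sub_le hB1 hL1 hB hD' hf' le_rfl hKU hU k x y).trans ?_
    have hQk : 0 ≤ Q ^ k := by positivity
    refine mul_le_mul_of_nonneg_left ?_ hQk
    have h1 := hA₁ x y
    have h2 := hA₂ x y
    rw [Real.rpow_one] at h2
    have h0 : 0 ≤ dist x y ^ β := Real.rpow_nonneg dist_nonneg _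
    calc dist x y * K' + C₁ * dist x y ^ β
        ≤ (A₂ * dist x y ^ β') * K' + |C₁| * (A₁ * dist x y ^ β') := by
          refine add_le_add (by gcongr) ?_
          refine (mul_le_mul_of_nonneg_right (le_abs_self C₁) h0).trans ?_
          gcongr
      _ = G * dist x y ^ β' := by rw [hG]; ring
  -- comparison
  have hcmp : ∀ k (x y : M), G * (Q ^ k * dist x y ^ β') ≤ c₀ / 2 →
      DomSplit.a S k x ≤ 2 * DomSplit.a S k y := by
    intro k x y h
    have h1 := hsub k x y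
    have h2 := hlow k x
    have h3 : Q ^ k * (G * dist x y ^ β') = G * (Q ^ k * dist x y ^ β') := by ring
    linarith
  set δ : ℝ := min 1 (c₀ / (2 * (G + 1))) with hδ
  have hδ0 : 0 < δ := lt_min one_pos (by positivity)
  have hδ1 : δ ≤ 1 := min_le_left _ _
  have hGδ : G * δ ≤ c₀ / 2 := by
    have h1 : δ ≤ c₀ / (2 * (G + 1)) := min_le_right _ _
    rw [le_div_iff₀ (by positivity)] at h1
    nlinarith
  obtain ⟨A, γ, hA1, hγ0, hγβ, hsc⟩ := exists_scale H.l_pos H.l_lt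
    (show 1 < Q ^ 2 by nlinarith) hδ0 hδ1 hβ'0 hβ'1
  have hA0 : 0 ≤ A := by linarith
  have hγ1 : γ ≤ 1 := by linarith
  -- the main estimates
  have main : ∀ x y : M, 0 < dist x y → dist x y ^ β' ≤ δ →
      ‖T y ∘L R x‖ ≤ (C * K * (2 * C * A + A / c₀) * K) * dist x y ^ γ ∧
      ‖R y ∘L T x‖ ≤ (C * K * A * (2 * C + K' * A) * K) * dist x y ^ γ := by
    intro x y hd hdδ
    obtain ⟨k, hk1, hk2, hk3⟩ := hsc (dist x y) hd hdδ
    have hQk : 1 ≤ Q ^ k := one_le_pow₀ hQ1.le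
    have hQk0 : 0 < Q ^ k := by positivity
    have hQ2 : (Q ^ 2) ^ k = Q ^ k * Q ^ k := by rw [← pow_mul, mul_comm 2 k, pow_mul]; ring
    rw [hQ2] at hk1 hk2
    have hdβ : 0 ≤ dist x y ^ β' := by positivity
    have hdγ : 0 ≤ dist x y ^ γ := by positivity
    have hl0 : 0 ≤ l ^ k := pow_nonneg H.l_pos.le k
    have hup : ∀ t : ℝ, 0 ≤ t → Q ^ k * t ≤ Q ^ k * Q ^ k * t := by
      intro t ht
      have h1 : 0 ≤ Q ^ k * t := by positivity
      calc Q ^ k * t = 1 * (Q ^ k * t) := by ring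
        _ ≤ Q ^ k * (Q ^ k * t) := mul_le_mul_of_nonneg_right hQk h1
        _ = Q ^ k * Q ^ k * t := by ring
    have hk2' : Q ^ k * dist x y ≤ A * dist x y ^ γ := (hup _ hd.le).trans hk2
    have hd1 : dist x y ≤ 1 := by
      by_contra h
      rw [not_le] at h
      have := Real.one_lt_rpow h hβ'0
      linarith
    have hdγ1 : dist x y ^ γ ≤ 1 := Real.rpow_le_one hd.le hd1 hγ0.le
    have hsmall : G * (Q ^ k * dist x y ^ β') ≤ c₀ / 2 :=
      le_trans (mul_le_mul_of_nonneg_left ((hup _ hdβ).trans hk1) hG0) hGδ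
    constructor
    · refine ContinuousLinearMap.opNorm_le_bound _ (by positivity) fun w => ?_
      have h1 := H.cross1 hB1 hL1 hB hD' hf' le_rfl hc₀0 k x y (hlow k y)
        (hcmp k x y hsmall) w
      have h2 : ‖R x w‖ ≤ K * ‖w‖ := (R x).le_of_opNorm_le (H.bdd x).1 w
      calc ‖(T y ∘L R x) w‖ ≤ C * K * (2 * C * l ^ k + Q ^ k * dist x y / c₀) * ‖R x w‖ := h1
        _ ≤ C * K * (2 * C * (A * dist x y ^ γ) + (A * dist x y ^ γ) / c₀) * (K * ‖w‖) := by
            gcongr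
        _ = _ := by ring
    · have hyx : dist (f.symm^[k] y) (f.symm^[k] x) ≤ L' ^ k * dist x y := by
        have : ∀ (j : ℕ) (x y : M), dist (f.symm^[j] y) (f.symm^[j] x) ≤ L' ^ j * dist x y := by
          intro j
          induction j with
          | zero => intro x y; simp [dist_comm]
          | succ j ih =>
            intro x y
            rw [iterate_succ_apply, iterate_succ_apply]
            refine (ih (f.symm x) (f.symm y)).trans ?_
            have h1 := hfi' x y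
            have hLj : 0 ≤ L' ^ j := by positivity
            calc L' ^ j * dist (f.symm x) (f.symm y) ≤ L' ^ j * (L' * dist x y) := by gcongr
              _ = L' ^ (j + 1) * dist x y := by ring
        exact this k x y
      have hsm : G * (Q ^ k * dist (f.symm^[k] y) (f.symm^[k] x) ^ β') ≤ c₀ / 2 := by
        refine le_trans (mul_le_mul_of_nonneg_left ?_ hG0) hGδ
        refine le_trans ?_ hk1
        have h1 : dist (f.symm^[k] y) (f.symm^[k] x) ^ β' ≤ Q ^ k * dist x y ^ β' := by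
          calc dist (f.symm^[k] y) (f.symm^[k] x) ^ β' ≤ (L' ^ k * dist x y) ^ β' :=
                Real.rpow_le_rpow dist_nonneg hyx hβ'0.le
            _ = (L' ^ k) ^ β' * dist x y ^ β' :=
                Real.mul_rpow (by positivity) dist_nonneg
            _ ≤ (L' ^ k) ^ (1 : ℝ) * dist x y ^ β' := by
                gcongr
                · exact one_le_pow₀ hL1
                · linarith
            _ ≤ Q ^ k * dist x y ^ β' := by
                rw [Real.rpow_one]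
                gcongr
        calc Q ^ k * dist (f.symm^[k] y) (f.symm^[k] x) ^ β'
            ≤ Q ^ k * (Q ^ k * dist x y ^ β') := by gcongr
          _ = Q ^ k * Q ^ k * dist x y ^ β' := by ring
      refine ContinuousLinearMap.opNorm_le_bound _ (by positivity) fun w => ?_
      have h1 := H.cross2 hB1 hL1 hB hBi hDi' hfi' le_rfl hKU k x y (hcmp k _ _ hsm) w
      have h2 : ‖T x w‖ ≤ K * ‖w‖ := (T x).le_of_opNorm_le (H.bdd x).2 w
      have h3 : B ^ k * (Q ^ k * dist x y) ≤ A := by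
        calc B ^ k * (Q ^ k * dist x y) ≤ Q ^ k * (Q ^ k * dist x y) := by gcongr
          _ = Q ^ k * Q ^ k * dist x y := by ring
          _ ≤ A * dist x y ^ γ := hk2
          _ ≤ A * 1 := by gcongr
          _ = A := mul_one _
      calc ‖(R y ∘L T x) w‖
          ≤ C * K * l ^ k * (2 * C + K' * (B ^ k * (Q ^ k * dist x y))) * ‖T x w‖ := h1
        _ ≤ C * K * (A * dist x y ^ γ) * (2 * C + K' * A) * (K * ‖w‖) := by gcongr
        _ = _ := by ring
  -- the cross terms for all pairs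
  have cr1 : ∀ x y : M, ‖T y ∘L R x‖ ≤
      (C * K * (2 * C * A + A / c₀) * K + K * K * δ ^ (-(γ / β'))) * dist x y ^ γ := by
    intro x y
    refine bound_of_small hδ0 hβ'0 hγ0 dist_nonneg (fun h => ?_) (fun h h' => (main x y h h').1)
      ?_ (by positivity) (by positivity)
    · rw [dist_eq_zero] at h
      subst h
      rw [H.TR]
      simp
    · exact (ContinuousLinearMap.opNorm_comp_le _ _).trans
        (mul_le_mul (H.bdd y).2 (H.bdd x).1 (norm_nonneg _) hK0)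
  have cr2 : ∀ x y : M, ‖R y ∘L T x‖ ≤
      (C * K * A * (2 * C + K' * A) * K + K * K * δ ^ (-(γ / β'))) * dist x y ^ γ := by
    intro x y
    refine bound_of_small hδ0 hβ'0 hγ0 dist_nonneg (fun h => ?_) (fun h h' => (main x y h h').2)
      ?_ (by positivity) (by positivity)
    · rw [dist_eq_zero] at h
      subst h
      rw [H.RT]
      simp
    · exact (ContinuousLinearMap.opNorm_comp_le _ _).trans
        (mul_le_mul (H.bdd y).1 (H.bdd x).2 (norm_nonneg _) hK0)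
  set Z₁ := C * K * (2 * C * A + A / c₀) * K + K * K * δ ^ (-(γ / β')) with hZ₁
  set Z₂ := C * K * A * (2 * C + K' * A) * K + K * K * δ ^ (-(γ / β')) with hZ₂
  have hγβ0 : γ ≤ β := hγβ.trans (min_le_left _ _)
  obtain ⟨A₃, hA₃1, hA₃⟩ := rpow_le_rpow_cpt (M := M) hγ0 hγβ0
  refine ⟨2 * K * (|C₁| * A₃) + Z₁ + Z₂, γ, hγ0, hγ1, fun x y => ?_⟩
  have hU' : ∀ x y : M, ‖S.U x - S.U y‖ ≤ |C₁| * A₃ * dist x y ^ γ := by
    intro x y
    have h0 : 0 ≤ dist x y ^ β := Real.rpow_nonneg dist_nonneg _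
    calc ‖S.U x - S.U y‖ ≤ C₁ * dist x y ^ β := hU x y
      _ ≤ |C₁| * (A₃ * dist x y ^ γ) :=
          mul_le_mul (le_abs_self _) (hA₃ x y) h0 (abs_nonneg _)
      _ = _ := by ring
  have e : R x - R y = (R x ∘L (S.U x - S.U y) + R x ∘L T y) -
      ((S.U y - S.U x) ∘L R y + T x ∘L R y) := by
    have e1 : R x ∘L S.U y = R x ∘L R y + R x ∘L T y := by
      rw [← H.add y, ContinuousLinearMap.comp_add]
    have e2 : S.U x ∘L R y = R x ∘L R y + T x ∘L R y := by
      rw [← H.add x, ContinuousLinearMap.add_comp]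
    rw [ContinuousLinearMap.comp_sub, ContinuousLinearMap.sub_comp, H.RU, H.UR, e1, e2]
    abel
  have n1 : ‖R x ∘L (S.U x - S.U y)‖ ≤ K * (|C₁| * A₃ * dist x y ^ γ) :=
    (ContinuousLinearMap.opNorm_comp_le _ _).trans
      (mul_le_mul (H.bdd x).1 (hU' x y) (norm_nonneg _) hK0)
  have n2 : ‖(S.U y - S.U x) ∘L R y‖ ≤ (|C₁| * A₃ * dist x y ^ γ) * K := by
    refine (ContinuousLinearMap.opNorm_comp_le _ _).trans
      (mul_le_mul ?_ (H.bdd y).1 (norm_nonneg _) (by positivity))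
    have := hU' y x
    rwa [dist_comm] at this
  have n3 : ‖R x ∘L T y‖ ≤ Z₂ * dist x y ^ γ := by
    have := cr2 y x
    rwa [dist_comm] at this
  have n4 : ‖T x ∘L R y‖ ≤ Z₁ * dist x y ^ γ := by
    have := cr1 y x
    rwa [dist_comm] at this
  rw [e]
  calc _ ≤ (‖R x ∘L (S.U x - S.U y)‖ + ‖R x ∘L T y‖) +
        (‖(S.U y - S.U x) ∘L R y‖ + ‖T x ∘L R y‖) :=
        (norm_sub_le _ _).trans (add_le_add (norm_add_le _ _) (norm_add_le _ _))
    _ ≤ (K * (|C₁| * A₃ * dist x y ^ γ) + Z₂ * dist x y ^ γ) +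
        ((|C₁| * A₃ * dist x y ^ γ) * K + Z₁ * dist x y ^ γ) :=
        add_le_add (add_le_add n1 n3) (add_le_add n2 n4)
    _ = _ := by ring

end Pool.Agent.Lib.MP610fe3.HYP
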