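import Pool.Agent.Lib.MP_610fe3_an.HYP.Statement
import Pool.Agent.Lib.MP_610fe3_an.PR.PER
import Pool.Agent.Lib.MP_610fe3_an.T5.Final

/-!
# Module MAIN: slow hyperplane fields, rates at the periodic points
-/

open Set Filter Function Bundle
open scoped Manifold ContDiff Topology

namespace Pool.Agent.Lib.MP610fe3.HYP

universe u v

open Gen Cf Cf.Mfd PR.PER

section Metric

variable {V : Type u} [NormedAddCommGroup V] [NormedSpace ℝ V] [FiniteDimensional ℝ V] {N : ℕ}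
  {M : Type v} [MetricSpace M] [CompactSpace M]
  [ChartedSpace V M] [IsManifold 𝓘(ℝ, V) ∞ M]
  [RiemannianBundle (fun x : M => TangentSpace 𝓘(ℝ, V) x)]
  [IsContinuousRiemannianBundle V (fun x : M => TangentSpace 𝓘(ℝ, V) x)]

/-- The rates of `f` are those at the periodic points; the dominated bundle is closed. -/
theorem upgrade_metric (hHol : PR.SpecHol.{v, 0}) (hRat : PR.SpecRat.{v, 0})
    (hFld : SpecFld.{u, v}) (hHolW : SpecHolW.{v, 0}) (hClos : SpecClos.{u, v})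
    (e : M → EuclideanSpace ℝ (Fin N)) (hiso : Isometry e)
    (he : ContMDiff 𝓘(ℝ, V) (𝓡 N) ∞ e)
    (hinj : ∀ x, Injective (mfderiv 𝓘(ℝ, V) (𝓡 N) e x))
    (f : M ≃ₘ^1⟮𝓘(ℝ, V), 𝓘(ℝ, V)⟯ M) (hf : ContMDiff 𝓘(ℝ, V) 𝓘(ℝ, V) 2 f)
    (hfs : ContMDiff 𝓘(ℝ, V) 𝓘(ℝ, V) 2 f.symm)
    (Es Eu : ∀ x : M, Submodule ℝ (TangentSpace 𝓘(ℝ, V) x))
    (hA : Gen.IsAnosovSplitting f Es Eu) {ε : ℝ} (hε : 0 < ε) :
    (∀ c, PeriodicRate f f Es c → UniformRate f Es (c + ε)) ∧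
    (∀ c, PeriodicRate f f.symm Es c → UniformRate f.symm Es (c + ε)) ∧
    (∀ c, PeriodicRate f f.symm Eu c → UniformRate f.symm Eu (c + ε)) ∧
    (∀ Ew El : ∀ x : M, Submodule ℝ (TangentSpace 𝓘(ℝ, V) x), IsDominated f Eu Ew El →
      IsClosed {p : TangentBundle 𝓘(ℝ, V) M | p.2 ∈ Ew p.1} ∧
      ∀ c, PeriodicRate f f Ew c → UniformRate f Ew (c + ε)) := by
  obtain ⟨E, hE, hEP, hr⟩ := Gen.exists_emb e hiso he hinj
  subst hE
  obtain ⟨S, hS, hSs, hSu⟩ := Gen.exists_split E he hinj hr f Es Eu hA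
  have hinj' : ∀ x, Injective (dF V E.e x) := hinj
  have he2 : ContMDiff 𝓘(ℝ, V) (𝓡 N) 2 E.e := he.of_le two_le_infty
  obtain ⟨C₂, hSq⟩ := Cf.specSq V N M E he hinj hEP f.toHomeomorph hf hfs S
  obtain ⟨K, hK1, hK⟩ := S.exists_bdd
  obtain ⟨L₁, r₁, hL₁, hr₁, hl₁⟩ := S.hD.exists_lip
  obtain ⟨L₂, r₂, hL₂, hr₂, hl₂⟩ := S.hDi.exists_lip
  obtain ⟨L₃, hL₃, hlip₁⟩ := T6.MainB.lip_of_local (f := f) (by linarith : (0 : ℝ) ≤ L₁) hr₁ hl₁
  obtain ⟨L₄, hL₄, hlip₂⟩ := T6.MainB.lip_of_local (f := f.symm) (by linarith : (0 : ℝ) ≤ L₂)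
    hr₂ hl₂
  obtain ⟨C₃, hC₃⟩ := lip_KF he2 he2 E.isom hinj'
  set L : ℝ := max (max L₃ L₄) (max |C₂| |C₃|) with hL
  have hL0 : 0 ≤ L := hL₃.trans ((le_max_left _ _).trans (le_max_left _ _))
  have hLD : ∀ x y, ‖S.D x - S.D y‖ ≤ L * dist x y := fun x y => by
    refine (hSq.lipD y x).trans ?_
    gcongr
    exact (le_abs_self _).trans ((le_max_left _ _).trans (le_max_right _ _))
  have hLDi : ∀ x y, ‖S.Di x - S.Di y‖ ≤ L * dist x y := fun x y => by
    refine (hSq.lipDi y x).trans ?_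
    gcongr
    exact (le_abs_self _).trans ((le_max_left _ _).trans (le_max_right _ _))
  have hLP : ∀ x y, ‖E.P x - E.P y‖ ≤ L * dist x y := fun x y => by
    rw [hEP x, hEP y]
    refine (hC₃ y x).trans ?_
    gcongr
    exact (le_abs_self _).trans ((le_max_right _ _).trans (le_max_right _ _))
  have hLf : ∀ x y, dist (f.toHomeomorph x) (f.toHomeomorph y) ≤ L * dist x y := fun x y => by
    refine (hlip₁ x y).trans ?_
    gcongr
    exact (le_max_left _ _).trans (le_max_left _ _)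
  have hLfs : ∀ x y, dist (f.toHomeomorph.symm x) (f.toHomeomorph.symm y) ≤ L * dist x y :=
    fun x y => by
      refine (hlip₂ x y).trans ?_
      gcongr
      exact (le_max_right _ _).trans (le_max_left _ _)
  obtain ⟨C₄, β, hβ, hβ1, hC₄, hHl⟩ := hHol S hS L hLD hLDi hLP hLf hLfs
  obtain ⟨K₀, hK₀, hdist⟩ := dist_le_rpow (M := M) hβ hβ1
  set B : ℝ := max (max C₄ L) (L * K₀) with hB
  have hup : ∀ {t : ℝ} {x y : M}, t ≤ L * dist x y → t ≤ B * dist x y ^ β := by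
    intro t x y h
    have h0 : 0 ≤ dist x y ^ β := by positivity
    calc t ≤ L * dist x y := h
      _ ≤ L * (K₀ * dist x y ^ β) := by
          have := hdist x y
          gcongr
      _ = L * K₀ * dist x y ^ β := by ring
      _ ≤ B * dist x y ^ β := by
          gcongr
          exact le_max_right _ _
  have hBD : ∀ x y, ‖S.D x - S.D y‖ ≤ B * dist x y ^ β := fun x y => hup (hLD x y)
  have hBDi : ∀ x y, ‖S.Di x - S.Di y‖ ≤ B * dist x y ^ β := fun x y => hup (hLDi x y)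
  have hBS : ∀ x y, ‖S.S x - S.S y‖ ≤ B * dist x y ^ β := fun x y => by
    refine (hHl x y).1.trans ?_
    have h0 : 0 ≤ dist x y ^ β := by positivity
    gcongr
    exact (le_max_left _ _).trans (le_max_left _ _)
  have hBU : ∀ x y, ‖S.U x - S.U y‖ ≤ B * dist x y ^ β := fun x y => by
    refine (hHl x y).2.trans ?_
    have h0 : 0 ≤ dist x y ^ β := by positivity
    gcongr
    exact (le_max_left _ _).trans (le_max_left _ _)
  -- the dictionary
  obtain ⟨c₀, C₁, hc₀, hC₁, hn⟩ := exists_norm_bounds E.e he hinj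
  have hn' : ∀ x (v : TangentSpace 𝓘(ℝ, V) x), c₀ * ‖v‖ ≤ ‖dE V E.e x v‖ ∧
      ‖dE V E.e x v‖ ≤ C₁ * ‖v‖ := by
    intro x v
    have h1 := hn x v
    rw [norm_tangentSpace_vectorSpace] at h1
    exact h1
  have he1 : ContMDiff 𝓘(ℝ, V) (𝓡 N) 1 E.e := he.of_le (by exact_mod_cast le_top)
  have hit : ∀ {h : M → M}, ContMDiff 𝓘(ℝ, V) 𝓘(ℝ, V) 1 h →
      ∀ {D : M → EuclideanSpace ℝ (Fin N) →L[ℝ] EuclideanSpace ℝ (Fin N)}, HasD E h D →
      ∀ (k : ℕ) x (v : TangentSpace 𝓘(ℝ, V) x), iterD D h k x (dE V E.e x v) =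
        dE V E.e (h^[k] x) (mfderiv 𝓘(ℝ, V) 𝓘(ℝ, V) (h^[k]) x v) := by
    intro h hh D hD k x v
    refine iterD_dE he hh (fun x u => ?_) k x v
    have h3 := mfderiv_comp (I := 𝓘(ℝ, V)) (I' := 𝓘(ℝ, V)) (I'' := 𝓡 N) (f := h) x
      (he1.mdifferentiable (by norm_num) (h x)) (hh.mdifferentiable (by norm_num) x)
    rw [HasD_eq_KF E he hinj hEP hh hD x]
    refine (KF_apply hinj' x u).trans ?_
    unfold dF
    rw [h3]
    rfl
  have hm1 : ∀ {Q : M → EuclideanSpace ℝ (Fin N) →L[ℝ] EuclideanSpace ℝ (Fin N)}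
      {F : ∀ x : M, Submodule ℝ (TangentSpace 𝓘(ℝ, V) x)},
      (∀ x, (Q x).range = (F x).map (mfderiv 𝓘(ℝ, V) (𝓡 N) E.e x).toLinearMap) →
      ∀ x w, ∃ v ∈ F x, dE V E.e x v = Q x w := by
    intro Q F hF x w
    have h1 : Q x w ∈ (Q x).range := ⟨w, rfl⟩
    rw [hF x] at h1
    obtain ⟨v', hv', hvv'⟩ := h1
    exact ⟨v', hv', hvv'⟩
  have hm2 : ∀ {Q : M → EuclideanSpace ℝ (Fin N) →L[ℝ] EuclideanSpace ℝ (Fin N)}
      {F : ∀ x : M, Submodule ℝ (TangentSpace 𝓘(ℝ, V) x)}, (∀ x, Q x ∘L Q x = Q x) →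
      (∀ x, (Q x).range = (F x).map (mfderiv 𝓘(ℝ, V) (𝓡 N) E.e x).toLinearMap) →
      ∀ x, ∀ v ∈ F x, Q x (dE V E.e x v) = dE V E.e x v := by
    intro Q F hQ hF x v hv
    have h1 : dE V E.e x v ∈ (F x).map (mfderiv 𝓘(ℝ, V) (𝓡 N) E.e x).toLinearMap := ⟨v, hv, rfl⟩
    rw [← hF x] at h1
    obtain ⟨w, hw⟩ := h1
    have h2 := congrArg (fun L => L w) (hQ x)
    simp only [ContinuousLinearMap.comp_apply] at h2
    have hw' : Q x w = dE V E.e x v := hw
    rw [← hw', h2]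
  have hper : ∀ (q : ℕ) (p : M), (⇑f.toHomeomorph.symm)^[q] p = p → (⇑f)^[q] p = p := by
    intro q p hp
    have h1 : (⇑f)^[q] ((⇑f.toHomeomorph.symm)^[q] p) = p :=
      (Function.LeftInverse.iterate (f := ⇑f.toHomeomorph.symm) (g := ⇑f)
        f.toHomeomorph.apply_symm_apply q) p
    rw [hp] at h1
    exact h1
  have hpp : ∀ (q : ℕ) (p : M), 0 < q → (⇑f)^[q] p = p → p ∈ periodicPts f :=
    fun q p hq hp => ⟨q, hq, hp⟩
  -- the four estimates
  refine ⟨fun c hc => ?_, fun c hc => ?_, fun c hc => ?_, fun Ew El hW => ?_⟩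
  · obtain ⟨A₁, hA₁⟩ := hRat S hS S.S K B β S.SS S.DS (fun x => (hK x).1) hβ hβ1 hBD hBS c
      (fun p q hq hp ε' hε' => by
        obtain ⟨C, hC⟩ := hc p (hpp q p hq hp) ε' hε'
        exact ⟨_, fun n w => to_amb hc₀ hC₁ hn' (hit f.contMDiff S.hD) (hm1 hSs)
          (fun x => (hK x).1) hC n w⟩) ε hε
    exact ⟨_, to_mfd hc₀ hC₁ hn' (hit f.contMDiff S.hD) (hm2 S.SS hSs) hA₁⟩
  · obtain ⟨A₂, hA₂⟩ := hRat S.swap hS.swap S.S K B β S.SS S.swap.DU (fun x => (hK x).1) hβ hβ1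
      hBDi hBS c
      (fun p q hq hp ε' hε' => by
        obtain ⟨C, hC⟩ := hc p (hpp q p hq (hper q p hp)) ε' hε'
        exact ⟨_, fun n w => to_amb hc₀ hC₁ hn' (hit f.symm.contMDiff S.hDi) (hm1 hSs)
          (fun x => (hK x).1) hC n w⟩) ε hε
    exact ⟨_, to_mfd hc₀ hC₁ hn' (hit f.symm.contMDiff S.hDi) (hm2 S.SS hSs) hA₂⟩
  · obtain ⟨A₃, hA₃⟩ := hRat S.swap hS.swap S.U K B β S.UU S.swap.DS (fun x => (hK x).2) hβ hβ1
      hBDi hBU c
      (fun p q hq hp ε' hε' => by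
        obtain ⟨C, hC⟩ := hc p (hpp q p hq (hper q p hp)) ε' hε'
        exact ⟨_, fun n w => to_amb hc₀ hC₁ hn' (hit f.symm.contMDiff S.hDi) (hm1 hSu)
          (fun x => (hK x).2) hC n w⟩) ε hε
    exact ⟨_, to_mfd hc₀ hC₁ hn' (hit f.symm.contMDiff S.hDi) (hm2 S.UU hSu) hA₃⟩
  obtain ⟨R, T, KR, CR, lR, hDS, hRr, hTr⟩ := hFld E he hinj hEP f Eu Ew El hW S hS hSu
  obtain ⟨C₅, γ, hγ, hγ1, hHR⟩ := hHolW S hS R T KR CR lR hDS L hLD hLDi hLf hLfs C₄ β hβ hβ1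
    (fun x y => (hHl x y).2)
  obtain ⟨K₁, hK₁, hdist₁⟩ := dist_le_rpow (M := M) hγ hγ1
  set B' : ℝ := max C₅ (L * K₁) with hB'
  have hBD' : ∀ x y, ‖S.D x - S.D y‖ ≤ B' * dist x y ^ γ := fun x y => by
    have h0 : 0 ≤ dist x y ^ γ := by positivity
    calc ‖S.D x - S.D y‖ ≤ L * dist x y := hLD x y
      _ ≤ L * (K₁ * dist x y ^ γ) := by
          have := hdist₁ x y
          gcongr
      _ = L * K₁ * dist x y ^ γ := by ring
      _ ≤ B' * dist x y ^ γ := by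
          gcongr
          exact le_max_right _ _
  have hBR : ∀ x y, ‖R x - R y‖ ≤ B' * dist x y ^ γ := fun x y => by
    refine (hHR x y).trans ?_
    have h0 : 0 ≤ dist x y ^ γ := by positivity
    gcongr
    exact le_max_left _ _
  have hRc : Continuous R := by
    rw [Metric.continuous_iff]
    intro x η hη
    have h1 : Filter.Tendsto (fun y : M => B' * dist y x ^ γ) (𝓝 x) (𝓝 (B' * 0 ^ γ)) := by
      have h2 : Filter.Tendsto (fun y : M => dist y x) (𝓝 x) (𝓝 0) := by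
        have := (continuous_id.dist (continuous_const (y := x))).tendsto x
        simpa using this
      exact (h2.rpow_const (Or.inr hγ.le)).const_mul B'
    rw [Real.zero_rpow hγ.ne', mul_zero] at h1
    have h3 := h1.eventually (gt_mem_nhds hη)
    obtain ⟨δ, hδ, H⟩ := Metric.eventually_nhds_iff.1 h3
    refine ⟨δ, hδ, fun y hy => ?_⟩
    rw [dist_eq_norm]
    exact (hBR y x).trans_lt (H hy)
  refine ⟨hClos E.e he hinj R hRc hDS.RR Ew hRr, fun c hc => ?_⟩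
  obtain ⟨A₄, hA₄⟩ := hRat S hS R KR B' γ hDS.RR hDS.DR (fun x => (hDS.bdd x).1) hγ hγ1
    hBD' hBR c
    (fun p q hq hp ε' hε' => by
      obtain ⟨C, hC⟩ := hc p (hpp q p hq hp) ε' hε'
      exact ⟨_, fun n w => to_amb hc₀ hC₁ hn' (hit f.contMDiff S.hD) (hm1 hRr)
        (fun x => (hDS.bdd x).1) hC n w⟩) ε hε
  exact ⟨_, to_mfd hc₀ hC₁ hn' (hit f.contMDiff S.hD) (hm2 hDS.RR hRr) hA₄⟩

end Metric

/-- There is room in the inequality. -/
theorem exists_room {r s a b : ℝ} (hs : 0 < s) (ha : 0 < a) (h : (r / s - 1) * (b / a - 1) < 1) :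
    ∃ ε : ℝ, 0 < ε ∧ ε < s ∧ ε < a ∧ ((r + ε) / (s - ε) - 1) * ((b + ε) / (a - ε) - 1) < 1 := by
  have h0 : Tendsto (fun ε : ℝ => ((r + ε) / (s - ε) - 1) * ((b + ε) / (a - ε) - 1)) (𝓝 0)
      (𝓝 (((r + 0) / (s - 0) - 1) * ((b + 0) / (a - 0) - 1))) := by
    have t : Tendsto (fun ε : ℝ => ε) (𝓝 0) (𝓝 0) := tendsto_id
    exact (((tendsto_const_nhds.add t).div (tendsto_const_nhds.sub t) (by simpa using hs.ne')).sub
      tendsto_const_nhds).mul (((tendsto_const_nhds.add t).div (tendsto_const_nhds.sub t)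
        (by simpa using ha.ne')).sub tendsto_const_nhds)
  have h1 : ∀ᶠ ε in 𝓝[>] (0 : ℝ), ((r + ε) / (s - ε) - 1) * ((b + ε) / (a - ε) - 1) < 1 :=
    (h0.eventually (gt_mem_nhds (by simpa using h))).filter_mono nhdsWithin_le_nhds
  have h2 : ∀ᶠ ε in 𝓝[>] (0 : ℝ), ε < min s a :=
    (eventually_lt_nhds (lt_min hs ha)).filter_mono nhdsWithin_le_nhds
  obtain ⟨ε, ⟨h3, h4⟩, h5⟩ := ((h1.and h2).and self_mem_nhdsWithin).exists
  have h6 := lt_min_iff.1 h4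
  exact ⟨ε, h5, h6.1, h6.2, h3⟩

/-- `Ew` is a hyperplane of `Eu`. -/
theorem isHyperplane_of {V : Type*} [NormedAddCommGroup V] [NormedSpace ℝ V]
    {M : Type*} [TopologicalSpace M] [ChartedSpace V M]
    [RiemannianBundle (fun x : M => TangentSpace 𝓘(ℝ, V) x)]
    {f : M ≃ₘ^1⟮𝓘(ℝ, V), 𝓘(ℝ, V)⟯ M}
    {Eu Ew El : ∀ x : M, Submodule ℝ (TangentSpace 𝓘(ℝ, V) x)} (H : IsDominated f Eu Ew El)
    (x : M) : T4.IsHyperplane (Ew x) (Eu x) := by
  obtain ⟨v, hv0, hv⟩ := finrank_eq_one_iff'.1 (H.line x)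
  have hspan : El x = Submodule.span ℝ {(v : TangentSpace 𝓘(ℝ, V) x)} := by
    apply le_antisymm
    · intro w hw
      obtain ⟨c, hc⟩ := hv ⟨w, hw⟩
      exact Submodule.mem_span_singleton.2 ⟨c, congrArg Subtype.val hc⟩
    · rw [Submodule.span_singleton_le_iff_mem]
      exact v.2
  refine ⟨v, ?_, ?_, ?_⟩
  · rw [← H.sup_eq x]
    exact Submodule.mem_sup_right v.2
  · intro h
    exact hv0 (Subtype.ext ((Submodule.disjoint_def.1 (H.disj x)) _ h v.2))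
  · rw [← H.sup_eq x]
    exact congrArg (Ew x ⊔ ·) hspan

section Final

variable {V : Type u} [NormedAddCommGroup V] [NormedSpace ℝ V] [FiniteDimensional ℝ V]
  {M : Type v} [TopologicalSpace M] [CompactSpace M] [T2Space M]
  [ChartedSpace V M] [IsManifold 𝓘(ℝ, V) ∞ M]
  [RiemannianBundle (fun x : M => TangentSpace 𝓘(ℝ, V) x)]
  [IsContinuousRiemannianBundle V (fun x : M => TangentSpace 𝓘(ℝ, V) x)]

/-- The rates of `f` are those at the periodic points; the dominated bundle is closed. -/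
theorem upgrade (hHol : PR.SpecHol.{v, 0}) (hRat : PR.SpecRat.{v, 0})
    (hFld : SpecFld.{u, v}) (hHolW : SpecHolW.{v, 0}) (hClos : SpecClos.{u, v})
    (f : M ≃ₘ^1⟮𝓘(ℝ, V), 𝓘(ℝ, V)⟯ M) (hf : IsC2 f)
    (Es Eu : ∀ x : M, Submodule ℝ (TangentSpace 𝓘(ℝ, V) x))
    (hA : Gen.IsAnosovSplitting f Es Eu) {ε : ℝ} (hε : 0 < ε) :
    (∀ c, PeriodicRate f f Es c → UniformRate f Es (c + ε)) ∧
    (∀ c, PeriodicRate f f.symm Es c → UniformRate f.symm Es (c + ε)) ∧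
    (∀ c, PeriodicRate f f.symm Eu c → UniformRate f.symm Eu (c + ε)) ∧
    (∀ Ew El : ∀ x : M, Submodule ℝ (TangentSpace 𝓘(ℝ, V) x), IsDominated f Eu Ew El →
      IsClosed {p : TangentBundle 𝓘(ℝ, V) M | p.2 ∈ Ew p.1} ∧
      ∀ c, PeriodicRate f f Ew c → UniformRate f Ew (c + ε)) := by
  obtain ⟨N, e, he, hemb, hinj⟩ := exists_embedding_euclidean_of_compact (I := 𝓘(ℝ, V)) (M := M)
  let _ : MetricSpace M := hemb.isEmbedding.comapMetricSpace e
  have hiso : Isometry e := hemb.isEmbedding.to_isometry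
  exact upgrade_metric hHol hRat hFld hHolW hClos e hiso he hinj f hf.1 hf.2 Es Eu hA hε

omit [CompactSpace M] [T2Space M] [IsManifold 𝓘(ℝ, V) ∞ M] [FiniteDimensional ℝ V]
  [IsContinuousRiemannianBundle V (fun x : M => TangentSpace 𝓘(ℝ, V) x)] in
/-- Uniform rates with a larger exponent and a given constant. -/
theorem UniformRate.mono {g : M → M} {F : ∀ x : M, Submodule ℝ (TangentSpace 𝓘(ℝ, V) x)}
    {c c' : ℝ} (h : UniformRate g F c) (hc : c ≤ c') : UniformRate g F c' := by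
  obtain ⟨C, hC⟩ := h
  refine ⟨|C|, fun n x v hv => (hC n x v hv).trans ?_⟩
  have h0 : (0 : ℝ) ≤ n := Nat.cast_nonneg n
  have h1 := le_abs_self C
  have h2 := abs_nonneg C
  calc C * Real.exp (c * n) * ‖v‖ ≤ |C| * Real.exp (c * n) * ‖v‖ := by gcongr
    _ ≤ |C| * Real.exp (c' * n) * ‖v‖ := by gcongr

end Final

section Conn

variable {V : Type u} [NormedAddCommGroup V] [NormedSpace ℝ V] [FiniteDimensional ℝ V]
  {M : Type v} [TopologicalSpace M] [CompactSpace M] [T2Space M] [ConnectedSpace M]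
  [ChartedSpace V M] [IsManifold 𝓘(ℝ, V) ∞ M]
  [RiemannianBundle (fun x : M => TangentSpace 𝓘(ℝ, V) x)]
  [IsContinuousRiemannianBundle V (fun x : M => TangentSpace 𝓘(ℝ, V) x)]

/-- **The main theorem** from its modules. -/
theorem transitive_of (hHol : PR.SpecHol.{v, 0}) (hRat : PR.SpecRat.{v, 0})
    (hFld : SpecFld.{u, v}) (hHolW : SpecHolW.{v, 0}) (hClos : SpecClos.{u, v})
    (f : M ≃ₘ^1⟮𝓘(ℝ, V), 𝓘(ℝ, V)⟯ M)
    (Es Eu Ew : ∀ x : M, Submodule ℝ (TangentSpace 𝓘(ℝ, V) x))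
    (hA : Gen.IsAnosovSplitting f Es Eu) {r s a b : ℝ} (hs : 0 < s) (hsr : s ≤ r) (ha : 0 < a)
    (hab : a ≤ b) (h : SlowHyperplane f Es Eu Ew r s a b) (hp : (r / s - 1) * (b / a - 1) < 1) :
    TopTransitive f := by
  obtain ⟨ε, hε, hεs, hεa, hp'⟩ := exists_room hs ha hp
  have H := fun hf : IsC2 f => upgrade hHol hRat hFld hHolW hClos f hf Es Eu hA hε
  have h1 : UniformRate f Es (-s + ε) := by
    rcases h.s_upper with h1 | ⟨hf, h1⟩
    · exact h1.mono (by linarith)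
    · exact (H hf).1 _ h1
  have h2 : UniformRate f.symm Es (r + ε) := by
    rcases h.s_lower with h1 | ⟨hf, h1⟩
    · exact h1.mono (by linarith)
    · exact (H hf).2.1 _ h1
  have h3 : UniformRate f.symm Eu (-a + ε) := by
    rcases h.u_lower with h1 | ⟨hf, h1⟩
    · exact h1.mono (by linarith)
    · exact (H hf).2.2.1 _ h1
  have h4 : UniformRate f Ew (b + ε) := by
    rcases h.w_upper with h1 | ⟨hf, ⟨El, hD⟩, h1⟩
    · exact h1.mono (by linarith)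
    · exact ((H hf).2.2.2 Ew El hD).2 _ h1
  obtain ⟨C₁, hC₁⟩ := h1
  obtain ⟨C₂, hC₂⟩ := h2
  obtain ⟨C₃, hC₃⟩ := h3
  obtain ⟨C₄, hC₄⟩ := h4
  have epow : ∀ (t : ℝ) (n : ℕ), Real.exp (t * n) = Real.exp t ^ n := by
    intro t n
    rw [← Real.exp_nat_mul, mul_comm]
  have hR : T4.Rates f Es Eu Ew (max (max C₁ C₂) (max C₃ C₄)) (Real.exp (-(r + ε)))
      (Real.exp (-(s - ε))) (Real.exp (a - ε)) (Real.exp (b + ε)) := by
    refine ⟨fun n x v hv => ?_, fun n x v hv => ?_, fun n x v hv => ?_, fun n x v hv => ?_⟩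
    · have h1 := hC₁ n x v hv
      rw [epow, show -s + ε = -(s - ε) by ring] at h1
      refine h1.trans ?_
      gcongr
      exact (le_max_left _ _).trans (le_max_left _ _)
    · have h1 := hC₂ n x v hv
      rw [epow] at h1
      rw [← Real.exp_neg, neg_neg]
      refine h1.trans ?_
      gcongr
      exact (le_max_right _ _).trans (le_max_left _ _)
    · have h1 := hC₃ n x v hv
      rw [epow, show -a + ε = -(a - ε) by ring] at h1
      rw [← Real.exp_neg]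
      refine h1.trans ?_
      gcongr
      exact (le_max_left _ _).trans (le_max_right _ _)
    · have h1 := hC₄ n x v hv
      rw [epow] at h1
      refine h1.trans ?_
      gcongr
      exact (le_max_right _ _).trans (le_max_right _ _)
  refine T5.main f Es Eu Ew hA h.hyperplane h.closed _ _ _ _ _ (Real.exp_pos _)
    (Real.exp_le_exp.2 (by linarith)) (by rw [← Real.exp_zero]; exact Real.exp_lt_exp.2 (by linarith))
    (by rw [← Real.exp_zero]; exact Real.exp_lt_exp.2 (by linarith))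
    (Real.exp_le_exp.2 (by linarith)) hR ?_
  rw [Real.log_exp, Real.log_exp, Real.log_exp, Real.log_exp, neg_div_neg_eq]
  exact hp'

end Conn

end Pool.Agent.Lib.MP610fe3.HYP
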