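import Pool.Agent.Lib.MP_610fe3_an.HYP.Statement
import Pool.Agent.Lib.MP_610fe3_an.HYP.Fld
import Pool.Agent.Lib.MP_610fe3_an.HYP.HolW
import Pool.Agent.Lib.MP_610fe3_an.HYP.Clos
import Pool.Agent.Lib.MP_610fe3_an.HYP.Main
import Pool.Agent.Lib.MP_610fe3_an.PR.All
import Pool.Agent.Lib.MP_610fe3_an.Holo.Main

/-!
# Slow hyperplane fields in the unstable bundle: the theorems
-/

open Set Filter Function Bundle
open scoped Manifold ContDiff Topology

namespace Pool.Agent.Lib.MP610fe3.HYP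

universe u v

/-- The growth of cocycles with the closing property is that at the periodic points. -/
theorem kal : PR.SpecKal.{v, 0} :=
  PR.specKal PR.specForms PR.specRank PR.specChoice
    (PR.specScale (PR.specSimple_of PR.specGood PR.specDom PR.specPert PR.specCone))

variable {V : Type u} [NormedAddCommGroup V] [NormedSpace ℝ V] [FiniteDimensional ℝ V]
  {M : Type v} [TopologicalSpace M] [CompactSpace M] [T2Space M] [ConnectedSpace M]
  [ChartedSpace V M] [IsManifold 𝓘(ℝ, V) ∞ M]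
  [RiemannianBundle (fun x : M => TangentSpace 𝓘(ℝ, V) x)]
  [IsContinuousRiemannianBundle V (fun x : M => TangentSpace 𝓘(ℝ, V) x)]

/-- **The main theorem.** -/
theorem transitive (f : M ≃ₘ^1⟮𝓘(ℝ, V), 𝓘(ℝ, V)⟯ M)
    (Es Eu Ew : ∀ x : M, Submodule ℝ (TangentSpace 𝓘(ℝ, V) x))
    (hA : Gen.IsAnosovSplitting f Es Eu) {r s a b : ℝ} (hs : 0 < s) (hsr : s ≤ r) (ha : 0 < a)
    (hab : a ≤ b) (h : SlowHyperplane f Es Eu Ew r s a b) (hp : (r / s - 1) * (b / a - 1) < 1) :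
    TopTransitive f :=
  transitive_of PR.specHol (PR.specRat kal PR.specClo) specFld specHolW specClos f Es Eu Ew hA
    hs hsr ha hab h hp

omit [ConnectedSpace M] in
/-- A dominated bundle is closed. -/
theorem IsDominated.isClosed (f : M ≃ₘ^1⟮𝓘(ℝ, V), 𝓘(ℝ, V)⟯ M) (hf : IsC2 f)
    (Es Eu Ew El : ∀ x : M, Submodule ℝ (TangentSpace 𝓘(ℝ, V) x))
    (hA : Gen.IsAnosovSplitting f Es Eu) (hD : IsDominated f Eu Ew El) :
    IsClosed {p : TangentBundle 𝓘(ℝ, V) M | p.2 ∈ Ew p.1} :=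
  ((upgrade PR.specHol (PR.specRat kal PR.specClo) specFld specHolW specClos f hf Es Eu hA
    one_pos).2.2.2 Ew El hD).1

/-- The case in which all bounds are bounds at the periodic points. -/
theorem periodic (f : M ≃ₘ^1⟮𝓘(ℝ, V), 𝓘(ℝ, V)⟯ M) (hf : IsC2 f)
    (Es Eu Ew El : ∀ x : M, Submodule ℝ (TangentSpace 𝓘(ℝ, V) x))
    (hA : Gen.IsAnosovSplitting f Es Eu) (hD : IsDominated f Eu Ew El) {r s a b : ℝ} (hs : 0 < s)
    (hsr : s ≤ r) (ha : 0 < a) (hab : a ≤ b) (h₁ : PeriodicRate f f Es (-s))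
    (h₂ : PeriodicRate f f.symm Es r) (h₃ : PeriodicRate f f.symm Eu (-a))
    (h₄ : PeriodicRate f f Ew b) (hp : (r / s - 1) * (b / a - 1) < 1) : TopTransitive f :=
  transitive f Es Eu Ew hA hs hsr ha hab
    ⟨isHyperplane_of hD, hD.isClosed f hf Es Eu Ew El hA, Or.inr ⟨hf, h₁⟩, Or.inr ⟨hf, h₂⟩,
      Or.inr ⟨hf, h₃⟩, Or.inr ⟨hf, ⟨El, hD⟩, h₄⟩⟩ hp

/-- If the exponents on `Ew` at the periodic points are all equal to one number `a`, and those on
`Eu` are at least `a`, then `f` is transitive. Nothing is assumed about `Es`. -/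
theorem constWeak (f : M ≃ₘ^1⟮𝓘(ℝ, V), 𝓘(ℝ, V)⟯ M) (hf : IsC2 f)
    (Es Eu Ew El : ∀ x : M, Submodule ℝ (TangentSpace 𝓘(ℝ, V) x))
    (hA : Gen.IsAnosovSplitting f Es Eu) (hD : IsDominated f Eu Ew El) {a : ℝ} (ha : 0 < a)
    (h₁ : PeriodicRate f f.symm Eu (-a)) (h₂ : PeriodicRate f f Ew a) : TopTransitive f := by
  obtain ⟨N, e, he, hemb, hinj⟩ := exists_embedding_euclidean_of_compact (I := 𝓘(ℝ, V)) (M := M)
  obtain ⟨B, hB1, hB⟩ : ∃ B : ℝ, 1 ≤ B ∧ (∀ (n : ℕ) (x : M)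
      (v : TangentSpace 𝓘(ℝ, V) x),
      ‖mfderiv 𝓘(ℝ, V) 𝓘(ℝ, V) ((⇑f.symm)^[n]) x v‖ ≤ B ^ n * ‖v‖) := by
    let : MetricSpace M := hemb.isEmbedding.comapMetricSpace e
    have hiso : Isometry e := hemb.isEmbedding.to_isometry
    exact Holo.exists_deriv_bound e hiso he hinj f.symm f.symm.contMDiff
  obtain ⟨C, l, hC, hl, hl1, H⟩ := hA.estimate
  have hll : Real.log l < 0 := Real.log_neg hl hl1
  have hlB : 0 ≤ Real.log B := Real.log_nonneg hB1
  have hln : ∀ n : ℕ, l ^ n = Real.exp (Real.log l * n) := fun n => by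
    rw [mul_comm, Real.exp_nat_mul, Real.exp_log hl]
  have hBn : ∀ n : ℕ, B ^ n = Real.exp (Real.log B * n) := fun n => by
    rw [mul_comm, Real.exp_nat_mul, Real.exp_log (by linarith)]
  have h0 : ∀ n : ℕ, (0 : ℝ) ≤ n := fun n => Nat.cast_nonneg n
  refine transitive f Es Eu Ew hA (s := -Real.log l) (r := -Real.log l + Real.log B) (a := a)
    (b := a) (by linarith) (by linarith) ha le_rfl
    ⟨isHyperplane_of hD, hD.isClosed f hf Es Eu Ew El hA, Or.inl ⟨C, fun n x v hv => ?_⟩,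
      Or.inl ⟨1, fun n x v hv => ?_⟩, Or.inr ⟨hf, h₁⟩, Or.inr ⟨hf, ⟨El, hD⟩, h₂⟩⟩
    (by rw [div_self ha.ne', sub_self, mul_zero]; exact one_pos)
  · refine ((H n x).1 v hv).trans ?_
    rw [hln, neg_neg]
  · refine (hB n x v).trans ?_
    rw [hBn, one_mul]
    have := h0 n
    gcongr
    linarith

end Pool.Agent.Lib.MP610fe3.HYP
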