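import Pool.Agent.Lib.MP_610fe3_an.PR.Statement
import Pool.Agent.Lib.MP_610fe3_an.T5.Spec

/-!
# Slow hyperplane fields in the unstable bundle, rates at the periodic points: specification

The unstable bundle is the sum of an invariant bundle `Ew` and an invariant line field `El` which
dominates `Ew`; only the rates at the periodic points are given.
-/

open Set Filter Function Bundle
open scoped Manifold ContDiff Topology

namespace Pool.Agent.Lib.MP610fe3.HYP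

section Main

variable {V : Type*} [NormedAddCommGroup V] [NormedSpace ℝ V]
  {M : Type*} [TopologicalSpace M] [ChartedSpace V M]
  [RiemannianBundle (fun x : M => TangentSpace 𝓘(ℝ, V) x)]

/-- `Eu` is the direct sum of `Ew` and the line field `El`, both are invariant under `f`, and the
vectors of `El` are expanded exponentially faster than those of `Ew`. -/
structure IsDominated (f : M ≃ₘ^1⟮𝓘(ℝ, V), 𝓘(ℝ, V)⟯ M)
    (Eu Ew El : ∀ x : M, Submodule ℝ (TangentSpace 𝓘(ℝ, V) x)) : Prop where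
  sup_eq : ∀ x, Ew x ⊔ El x = Eu x
  disj : ∀ x, Disjoint (Ew x) (El x)
  line : ∀ x, Module.finrank ℝ (El x) = 1
  map_w : ∀ x, (Ew x).map (mfderiv 𝓘(ℝ, V) 𝓘(ℝ, V) f x).toLinearMap = Ew (f x)
  map_l : ∀ x, (El x).map (mfderiv 𝓘(ℝ, V) 𝓘(ℝ, V) f x).toLinearMap = El (f x)
  dom : ∃ C l : ℝ, 0 < C ∧ 0 < l ∧ l < 1 ∧ ∀ (k : ℕ) (x : M), ∀ v ∈ Ew x, ∀ w ∈ El x,
    ‖mfderiv 𝓘(ℝ, V) 𝓘(ℝ, V) ((⇑f)^[k]) x v‖ * ‖w‖ ≤
      C * l ^ k * ‖mfderiv 𝓘(ℝ, V) 𝓘(ℝ, V) ((⇑f)^[k]) x w‖ * ‖v‖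

end Main

universe u v

/-! ### The ambient picture -/

section Ambient

variable {M : Type u} [MetricSpace M] {W : Type v} [NormedAddCommGroup W] [NormedSpace ℝ W]
  {J : Emb M W} {f : M ≃ₜ M}

/-- The unstable projection is the sum of the projections `R` and `T`; the products are small on
the range of `R`, compared with their norm on the unstable space, and attain this norm on the
range of `T`, up to constants. -/
structure DomSplit (S : Split J f) (R T : M → W →L[ℝ] W) (K C l : ℝ) : Prop where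
  one_le_K : 1 ≤ K
  one_le_C : 1 ≤ C
  l_pos : 0 < l
  l_lt : l < 1
  add : ∀ x, R x + T x = S.U x
  RR : ∀ x, R x ∘L R x = R x
  TT : ∀ x, T x ∘L T x = T x
  RT : ∀ x, R x ∘L T x = 0
  TR : ∀ x, T x ∘L R x = 0
  DR : ∀ x, S.D x ∘L R x = R (f x) ∘L S.D x
  DT : ∀ x, S.D x ∘L T x = T (f x) ∘L S.D x
  bdd : ∀ x, ‖R x‖ ≤ K ∧ ‖T x‖ ≤ K
  weak : ∀ (k : ℕ) (x : M) (w : W),
    ‖iterD S.D f k x (R x w)‖ ≤ C * l ^ k * ‖iterD S.D f k x ∘L S.U x‖ * ‖R x w‖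
  ne : ∀ x, T x ≠ 0
  strong : ∀ (k : ℕ) (x : M) (w : W),
    ‖iterD S.D f k x ∘L S.U x‖ * ‖T x w‖ ≤ C * ‖iterD S.D f k x (T x w)‖

end Ambient

/-! ### Modules -/

/-- Module FLD: the projections on `Ew` and `El` in the ambient space. -/
def SpecFld : Prop :=
  ∀ {V : Type u} [NormedAddCommGroup V] [NormedSpace ℝ V] [FiniteDimensional ℝ V] {N : ℕ}
    {M : Type v} [MetricSpace M] [CompactSpace M] [ChartedSpace V M] [IsManifold 𝓘(ℝ, V) ∞ M]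
    [RiemannianBundle (fun x : M => TangentSpace 𝓘(ℝ, V) x)]
    [IsContinuousRiemannianBundle V (fun x : M => TangentSpace 𝓘(ℝ, V) x)]
    (E : Emb M (EuclideanSpace ℝ (Fin N))), ContMDiff 𝓘(ℝ, V) (𝓡 N) ∞ E.e →
    (∀ x, Injective (mfderiv 𝓘(ℝ, V) (𝓡 N) E.e x)) → (∀ x, E.P x = Gen.KF V E.e E.e x) →
    ∀ (f : M ≃ₘ^1⟮𝓘(ℝ, V), 𝓘(ℝ, V)⟯ M)
      (Eu Ew El : ∀ x : M, Submodule ℝ (TangentSpace 𝓘(ℝ, V) x)),
      IsDominated f Eu Ew El → ∀ S : Split E f.toHomeomorph, S.Hyperbolic →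
      (∀ x, (S.U x).range = (Eu x).map (mfderiv 𝓘(ℝ, V) (𝓡 N) E.e x).toLinearMap) →
      ∃ (R T : M → EuclideanSpace ℝ (Fin N) →L[ℝ] EuclideanSpace ℝ (Fin N)) (K C l : ℝ),
        DomSplit S R T K C l ∧
        (∀ x, (R x).range = (Ew x).map (mfderiv 𝓘(ℝ, V) (𝓡 N) E.e x).toLinearMap) ∧
        (∀ x, (T x).range = (El x).map (mfderiv 𝓘(ℝ, V) (𝓡 N) E.e x).toLinearMap)

/-- Module HOLW: the dominated splitting is Hölder continuous. Let `a k x` be the norm of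
`iterD D f k x ∘ U x` (it is at least a constant). If `Q^(2k) d(x,y)^β` is small then
`a k x ≤ 2 a k y`, and `‖T y (R x)‖ ≤ C (l^k + Q^k d(x, y))`,
`‖R y (T x)‖ ≤ C (l^k + Q^(2k) d(x, y))`. Choose `k`. -/
def SpecHolW : Prop :=
  ∀ {M : Type u} [MetricSpace M] [CompactSpace M] {W : Type v} [NormedAddCommGroup W]
    [NormedSpace ℝ W] {J : Emb M W} {f : M ≃ₜ M} (S : Split J f), S.Hyperbolic →
    ∀ (R T : M → W →L[ℝ] W) (K C l : ℝ), DomSplit S R T K C l →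
    ∀ L : ℝ, (∀ x y, ‖S.D x - S.D y‖ ≤ L * dist x y) → (∀ x y, ‖S.Di x - S.Di y‖ ≤ L * dist x y) →
      (∀ x y, dist (f x) (f y) ≤ L * dist x y) →
      (∀ x y, dist (f.symm x) (f.symm y) ≤ L * dist x y) →
    ∀ C₁ β : ℝ, 0 < β → β ≤ 1 → (∀ x y, ‖S.U x - S.U y‖ ≤ C₁ * dist x y ^ β) →
      ∃ C₂ γ : ℝ, 0 < γ ∧ γ ≤ 1 ∧ ∀ x y, ‖R x - R y‖ ≤ C₂ * dist x y ^ γ

/-- Module CLOS: a field which is the range of a continuous field of projections of the ambient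
space is closed in the tangent bundle. -/
def SpecClos : Prop :=
  ∀ {V : Type u} [NormedAddCommGroup V] [NormedSpace ℝ V] [FiniteDimensional ℝ V] {N : ℕ}
    {M : Type v} [MetricSpace M] [CompactSpace M] [ChartedSpace V M] [IsManifold 𝓘(ℝ, V) ∞ M]
    (e : M → EuclideanSpace ℝ (Fin N)), ContMDiff 𝓘(ℝ, V) (𝓡 N) ∞ e →
    (∀ x, Injective (mfderiv 𝓘(ℝ, V) (𝓡 N) e x)) →
    ∀ (R : M → EuclideanSpace ℝ (Fin N) →L[ℝ] EuclideanSpace ℝ (Fin N)), Continuous R →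
    (∀ x, R x ∘L R x = R x) → ∀ Ew : ∀ x : M, Submodule ℝ (TangentSpace 𝓘(ℝ, V) x),
    (∀ x, (R x).range = (Ew x).map (mfderiv 𝓘(ℝ, V) (𝓡 N) e x).toLinearMap) →
    IsClosed {p : TangentBundle 𝓘(ℝ, V) M | p.2 ∈ Ew p.1}

end Pool.Agent.Lib.MP610fe3.HYP
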