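import Pool.Agent.Lib.MP_610fe3_an.HYP.Spec

/-!
# Slow hyperplane fields in the unstable bundle: definitions of the statement
-/

open Set Filter Function Bundle
open scoped Manifold ContDiff Topology

namespace Pool.Agent.Lib.MP610fe3.HYP

variable {V : Type*} [NormedAddCommGroup V] [NormedSpace ℝ V]
  {M : Type*} [TopologicalSpace M] [ChartedSpace V M]
  [RiemannianBundle (fun x : M => TangentSpace 𝓘(ℝ, V) x)]

/-- The exponential growth of the derivatives of the iterates of `g` on the bundle `F` is at most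
`c`, uniformly on `M`. -/
def UniformRate (g : M → M) (F : ∀ x : M, Submodule ℝ (TangentSpace 𝓘(ℝ, V) x)) (c : ℝ) : Prop :=
  ∃ C : ℝ, ∀ (n : ℕ) (x : M), ∀ v ∈ F x,
    ‖mfderiv 𝓘(ℝ, V) 𝓘(ℝ, V) (g^[n]) x v‖ ≤ C * Real.exp (c * n) * ‖v‖

/-- The exponential growth of the derivatives of the iterates of `g` on the bundle `F` is at most
`c` at the periodic points of `f`; the constant `C` may depend on the point (and on `ε`). -/
def PeriodicRate (f g : M → M) (F : ∀ x : M, Submodule ℝ (TangentSpace 𝓘(ℝ, V) x)) (c : ℝ) :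
    Prop :=
  ∀ p ∈ periodicPts f, ∀ ε : ℝ, 0 < ε → ∃ C : ℝ, ∀ (n : ℕ), ∀ v ∈ F p,
    ‖mfderiv 𝓘(ℝ, V) 𝓘(ℝ, V) (g^[n]) p v‖ ≤ C * Real.exp ((c + ε) * n) * ‖v‖

variable [IsManifold 𝓘(ℝ, V) ∞ M]

/-- `f` and its inverse are of class `C^2`. -/
def IsC2 (f : M ≃ₘ^1⟮𝓘(ℝ, V), 𝓘(ℝ, V)⟯ M) : Prop :=
  ContMDiff 𝓘(ℝ, V) 𝓘(ℝ, V) 2 f ∧ ContMDiff 𝓘(ℝ, V) 𝓘(ℝ, V) 2 f.symm

/-- `Ew` is a continuous field of hyperplanes of `Eu`; the exponents of `f` are in `[-r, -s]` on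
`Es`, at least `a` on `Eu` and at most `b` on the vectors of `Ew`. Each of these four bounds is
either uniform or (`f`, `f⁻¹` of class `C^2`; in the case of `Ew`, if moreover `Ew` is invariant and
has an invariant complement in `Eu` which dominates it) a bound at the periodic points only. -/
structure SlowHyperplane (f : M ≃ₘ^1⟮𝓘(ℝ, V), 𝓘(ℝ, V)⟯ M)
    (Es Eu Ew : ∀ x : M, Submodule ℝ (TangentSpace 𝓘(ℝ, V) x)) (r s a b : ℝ) : Prop where
  hyperplane : ∀ x, T4.IsHyperplane (Ew x) (Eu x)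
  closed : IsClosed {p : TangentBundle 𝓘(ℝ, V) M | p.2 ∈ Ew p.1}
  s_upper : UniformRate f Es (-s) ∨ (IsC2 f ∧ PeriodicRate f f Es (-s))
  s_lower : UniformRate f.symm Es r ∨ (IsC2 f ∧ PeriodicRate f f.symm Es r)
  u_lower : UniformRate f.symm Eu (-a) ∨ (IsC2 f ∧ PeriodicRate f f.symm Eu (-a))
  w_upper : UniformRate f Ew b ∨
    (IsC2 f ∧ (∃ El, IsDominated f Eu Ew El) ∧ PeriodicRate f f Ew b)

end Pool.Agent.Lib.MP610fe3.HYP
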